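import Pool.Agent.Helper5.ST.Api

/-!
Statements of the analytic part (random walk, entropy, almost invariant subspace).
-/

namespace Pool.Agent.Helper5.ST

open Pool.Agent.Helper5.Gap Filter Topology
open scoped InnerProductSpace commutatorElement

universe u

/-- REG: the regular representation of an infinite group. -/
def SReg : Prop := ∀ (G : Type u) [Group G] [Infinite G],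
  ∃ (V : Type u) (_ : NormedAddCommGroup V) (_ : InnerProductSpace ℝ V) (_ : CompleteSpace V)
    (π : G →* (V ≃ₗᵢ[ℝ] V)) (δ : V), ‖δ‖ = 1 ∧ (∀ g, g ≠ 1 → ⟪π g δ, δ⟫_ℝ = 0) ∧
      ∀ v : V, (∀ g, π g v = v) → v = 0

/-- SEQ: moments of a self-adjoint operator with spectrum in `[0,1]`. -/
def SSeq : Prop := ∀ (V : Type u) [NormedAddCommGroup V] [InnerProductSpace ℝ V] (Q : V →ₗ[ℝ] V),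
  (∀ v v', ⟪Q v, v'⟫_ℝ = ⟪v, Q v'⟫_ℝ) → (∀ v, 0 ≤ ⟪Q v, v⟫_ℝ) → (∀ v, ⟪Q v, v⟫_ℝ ≤ ‖v‖ ^ 2) →
  ∀ (δ : V) (r : ℕ → ℝ), (∀ j, r j = ⟪(Q ^ j) δ, δ⟫_ℝ - ⟪(Q ^ (j + 1)) δ, δ⟫_ℝ) →
    (∀ j, 0 ≤ r j) ∧ (∀ j, r (j + 1) ≤ r j) ∧ (∀ j, r (j + 1) ^ 2 ≤ r j * r (j + 2))

/-- LIM: the return probabilities tend to zero. -/
def SLim : Prop := ∀ (V : Type u) [NormedAddCommGroup V] [InnerProductSpace ℝ V] [CompleteSpace V]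
  (Q : V →ₗ[ℝ] V), (∀ v v', ⟪Q v, v'⟫_ℝ = ⟪v, Q v'⟫_ℝ) → (∀ v, 0 ≤ ⟪Q v, v⟫_ℝ) →
  (∀ v, ‖Q v‖ ≤ ‖v‖) → (∀ v, Q v = v → v = 0) → ∀ δ : V,
    Tendsto (fun j : ℕ => ⟪(Q ^ j) δ, δ⟫_ℝ) atTop (𝓝 0)

/-- WALKQ: the averaging operator of a walk. -/
def SWalkQ : Prop := ∀ (G : Type u) [Group G] (w : Walk G) (V : Type u) [NormedAddCommGroup V]
  [InnerProductSpace ℝ V] (π : G →* (V ≃ₗᵢ[ℝ] V)),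
  (∀ v, ∑ i, w.p i * ‖π (w.s i) v - v‖ ^ 2 = 2 * (‖v‖ ^ 2 - ⟪w.Q π v, v⟫_ℝ)) ∧
  (∀ v, 0 ≤ ⟪w.Q π v, v⟫_ℝ) ∧ (∀ v, ‖w.Q π v‖ ≤ ‖v‖) ∧
  (Subgroup.closure w.X = ⊤ → ∀ v, w.Q π v = v → ∀ g, π g v = v) ∧
  (∀ δ : V, ‖δ‖ = 1 → (∀ g, g ≠ 1 → ⟪π g δ, δ⟫_ℝ = 0) → ∀ n : ℕ,
    1 ≤ (growth w.X n : ℝ) * ⟪((w.Q π) ^ (2 * n)) δ, δ⟫_ℝ)

/-- XI: existence of the vector `ξ`. -/
def SXi : Prop := ∀ (G : Type u) [Group G] (w : Walk G) (V : Type u) [NormedAddCommGroup V]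
  [InnerProductSpace ℝ V] [CompleteSpace V] (π : G →* (V ≃ₗᵢ[ℝ] V)) (δ : V), ‖δ‖ = 1 →
  (∀ g, g ≠ 1 → ⟪π g δ, δ⟫_ℝ = 0) → (∀ v : V, (∀ g, π g v = v) → v = 0) →
  Subgroup.closure w.X = ⊤ → ∀ (ρ : ℕ) (Λ : ℝ), 1 ≤ ρ → 0 < Λ →
  Real.log (growth w.X ρ) ≤ Λ → Λ < ρ → (ρ : ℝ) < Λ * Real.exp Λ →
    ∃ ξ : V, IsXi w π ξ (Λ / ρ)

/-- MOM: moments of the cocycle. -/
def SMom : Prop := ∀ (G : Type u) [Group G] (w : Walk G) (V : Type u) [NormedAddCommGroup V]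
  [InnerProductSpace ℝ V] (π : G →* (V ≃ₗᵢ[ℝ] V)) (ξ : V) (τ : ℝ), 0 ≤ τ → IsXi w π ξ τ →
  (∀ i, ‖coc π ξ (w.s i)‖ ^ 2 ≤ 4 * w.k) ∧
  (∑ i, w.p i * ‖coc π ξ (w.s i)‖ ^ 2 = 1) ∧
  (‖∑ i, w.p i • coc π ξ (w.s i)‖ ^ 2 ≤ τ / 2) ∧
  (∀ j : ℕ, w.mean j (fun g => ‖coc π ξ g‖ ^ 2) ≤ j) ∧
  (∀ j : ℕ, (j : ℝ) * τ ≤ 1 / 100 → w.mean j (fun g => ‖coc π ξ g‖ ^ 4) ≤ 80 * w.k * j ^ 2)

/-- WS: the difference of the two means is close to `b(s)`. -/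
def SWs : Prop := ∀ (G : Type u) [Group G] (w : Walk G) (V : Type u) [NormedAddCommGroup V]
  [InnerProductSpace ℝ V] (π : G →* (V ≃ₗᵢ[ℝ] V)) (ξ : V) (τ : ℝ), 0 ≤ τ → τ ≤ 1 →
  IsXi w π ξ τ → ∀ n : ℕ,
    ∑ i, w.p i * ‖(w.mean n (fun g => coc π ξ (w.s i * g)) - w.mean (n + 1) (coc π ξ)) -
      coc π ξ (w.s i)‖ ^ 2 ≤ 2 * n * τ + τ

/-- ENT1: one step of the entropy inequality and the trivial upper bound. -/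
def SEntStep : Prop := ∀ (G : Type u) [Group G] (w : Walk G) (n : ℕ),
  w.ent n + w.Hel n ≤ w.ent (n + 1) ∧ 0 ≤ w.ent n ∧ w.ent n ≤ Real.log (growth w.X n)

/-- ENT2: a good time. -/
def SEnt : Prop := ∀ (G : Type u) [Group G] (w : Walk G) (N : ℕ) (Λ : ℝ), 2 ≤ N →
  Real.log (growth w.X (N ^ 2)) ≤ Λ →
    ∃ n : ℕ, N ≤ n ∧ n < N ^ 2 ∧ (n : ℝ) * w.Hel n ≤ Λ / Real.log N

/-- HELCS: Cauchy–Schwarz with the Hellinger distance. -/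
def SHelCS : Prop := ∀ (ι : Type u) (t : Finset ι) (p q f : ι → ℝ), (∀ i ∈ t, 0 ≤ p i) →
  (∀ i ∈ t, 0 ≤ q i) → (∑ i ∈ t, (p i - q i) * f i) ^ 2 ≤
    (∑ i ∈ t, (√(p i) - √(q i)) ^ 2) * (2 * ∑ i ∈ t, (p i + q i) * f i ^ 2)

/-- INVT: the covariance form at time `n` is almost invariant. -/
def SInvt : Prop := ∀ (G : Type u) [Group G] (w : Walk G) (V : Type u) [NormedAddCommGroup V]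
  [InnerProductSpace ℝ V] (π : G →* (V ≃ₗᵢ[ℝ] V)) (ξ : V) (τ : ℝ), 0 ≤ τ → IsXi w π ξ τ →
  ∀ (n : ℕ) (d : ℝ), 1 ≤ d → 1 ≤ n → (n : ℝ) * τ ≤ 1 / 100 → w.k ≤ n → (n : ℝ) * w.Hel n ≤ d →
  ∀ (i : w.I) (u : V),
    |w.mean n (fun g => ⟪coc π ξ g, π (w.s i) u⟫_ℝ ^ 2) -
      w.mean n (fun g => ⟪coc π ξ g, u⟫_ℝ ^ 2)| ≤ 200 * w.k * √(d * n) * ‖u‖ ^ 2

/-- SPEC: a spectral gap at height between `1/(160 d)` and `1/(80 d)`. -/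
def SSpec : Prop := ∀ (V : Type u) [NormedAddCommGroup V] [InnerProductSpace ℝ V] (ι : Type u)
  (t : Finset ι) (c : ι → ℝ) (x : ι → V), (∀ i ∈ t, 0 ≤ c i) →
  ∑ i ∈ t, c i * ‖x i‖ ^ 2 ≤ 1 → ∀ d : ℕ, 1 ≤ d →
  ∃ (E : Submodule ℝ V) (_ : FiniteDimensional ℝ E) (θ : ℝ),
    Module.finrank ℝ E ≤ 160 * d ∧ 0 ≤ θ ∧ θ ≤ 1 / (80 * d) ∧
    (∀ v ∈ E, ∑ i ∈ t, (c i * ⟪x i, v⟫_ℝ) • x i ∈ E) ∧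
    (∀ v ∈ E, (θ + 1 / (26000 * d ^ 2)) * ‖v‖ ^ 2 ≤ ∑ i ∈ t, c i * ⟪x i, v⟫_ℝ ^ 2) ∧
    (∀ v ∈ Eᗮ, ∑ i ∈ t, c i * ⟪x i, v⟫_ℝ ^ 2 ≤ θ * ‖v‖ ^ 2)

/-- DK: the Davis–Kahan estimate. -/
def SDK : Prop := ∀ (V : Type u) [NormedAddCommGroup V] [InnerProductSpace ℝ V]
  (E : Submodule ℝ V) [FiniteDimensional ℝ E] (T : V →ₗ[ℝ] V) (U : V ≃ₗᵢ[ℝ] V) (θ δ ε₁ : ℝ),
  (∀ v v', ⟪T v, v'⟫_ℝ = ⟪v, T v'⟫_ℝ) → (∀ v, 0 ≤ ⟪T v, v⟫_ℝ) → (∀ v ∈ E, T v ∈ E) →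
  (∀ v ∈ E, (θ + δ) * ‖v‖ ^ 2 ≤ ⟪T v, v⟫_ℝ) → (∀ v ∈ Eᗮ, ⟪T v, v⟫_ℝ ≤ θ * ‖v‖ ^ 2) →
  0 ≤ θ → 0 < δ → 0 ≤ ε₁ → (∀ v, |⟪T (U v), U v⟫_ℝ - ⟪T v, v⟫_ℝ| ≤ ε₁ * ‖v‖ ^ 2) →
    ∀ v ∈ E, ‖U v - E.starProjection (U v)‖ ≤ ε₁ / δ * ‖v‖

/-- EN: the subspace carries most of the energy. -/
def SEn : Prop := ∀ (G : Type u) [Group G] (w : Walk G) (V : Type u) [NormedAddCommGroup V]
  [InnerProductSpace ℝ V] (π : G →* (V ≃ₗᵢ[ℝ] V)) (ξ : V) (τ : ℝ), 0 ≤ τ → IsXi w π ξ τ →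
  ∀ (n d : ℕ) (E : Submodule ℝ V) [FiniteDimensional ℝ E] (θ : ℝ), 1 ≤ d →
  (n : ℝ) * τ ≤ 1 / 100 → 10 ^ 12 * w.k ^ 2 * d ^ 3 ≤ n → (n : ℝ) * w.Hel n ≤ d →
  θ ≤ 1 / (80 * d) →
  (∀ v ∈ Eᗮ, w.mean n (fun g => ⟪coc π ξ g, v⟫_ℝ ^ 2) ≤ n * θ * ‖v‖ ^ 2) →
    7 / 10 ≤ ∑ i, w.p i * ‖E.starProjection (coc π ξ (w.s i))‖ ^ 2

/-- GR: linear growth of the energy along the walk. -/
def SGr : Prop := ∀ (G : Type u) [Group G] (w : Walk G) (V : Type u) [NormedAddCommGroup V]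
  [InnerProductSpace ℝ V] (π : G →* (V ≃ₗᵢ[ℝ] V)) (ξ : V) (τ : ℝ), 0 ≤ τ → IsXi w π ξ τ →
  ∀ (E : Submodule ℝ V) [FiniteDimensional ℝ E] (ε : ℝ), 0 ≤ ε →
  (∀ i, ∀ x ∈ E, ‖π (w.s i) x - E.starProjection (π (w.s i) x)‖ ≤ ε * ‖x‖) →
  7 / 10 ≤ ∑ i, w.p i * ‖E.starProjection (coc π ξ (w.s i))‖ ^ 2 →
  ∀ m : ℕ, (m : ℝ) * ε * w.k ≤ 1 / 100 → (m : ℝ) * τ ≤ 1 / 1000 →
    (m : ℝ) / 2 ≤ w.mean m (fun g => ‖E.starProjection (coc π ξ g)‖ ^ 2)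

/-- PATH: many separated points. -/
def SPath : Prop := ∀ (G : Type u) [Group G] (w : Walk G) (V : Type u) [NormedAddCommGroup V]
  [InnerProductSpace ℝ V] (π : G →* (V ≃ₗᵢ[ℝ] V)) (b : G → V)
  (E : Submodule ℝ V) [FiniteDimensional ℝ E] (β : ℝ), 0 < β →
  (∀ g h, b (g * h) = b g + π g (b h)) → (∀ i, ‖b (w.s i)‖ ≤ β) →
  ∀ m q : ℕ, 8 * q ^ 2 * β ^ 2 ≤ m →
  (m : ℝ) / 2 ≤ w.mean m (fun g => ‖E.starProjection (b g)‖ ^ 2) →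
  ∃ T : Finset G, T.card = q ∧ (∀ t ∈ T, t ∈ ball w.X m) ∧
    ∀ t ∈ T, ∀ t' ∈ T, t ≠ t' → β ≤ ‖E.starProjection (b t - b t')‖

section rep

variable {G : Type u} [Group G] {V : Type u} [NormedAddCommGroup V] [InnerProductSpace ℝ V]

/-- An affine isometric action with cocycle `b` for which the finite-dimensional space `E` is
almost invariant. -/
structure IsAA (X : Set G) (π : G →* (V ≃ₗᵢ[ℝ] V)) (b : G → V) (E : Submodule ℝ V)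
    [FiniteDimensional ℝ E] (β ε : ℝ) : Prop where
  coc : ∀ g h, b (g * h) = b g + π g (b h)
  b_le : ∀ s ∈ X, ‖b s‖ ≤ β
  inv : ∀ s, s ∈ X ∨ s⁻¹ ∈ X → ∀ x ∈ E, ‖π s x - E.starProjection (π s x)‖ ≤ ε * ‖x‖
  ε0 : 0 ≤ ε
  β0 : 0 < β

end rep

/-- ANA: the outcome of the analytic part. -/
def SAna : Prop := ∀ (G : Type u) [Group G] [Infinite G] (w : Walk G),
  Subgroup.closure w.X = ⊤ → ∀ (d N : ℕ), 1 ≤ d → 10 ^ 12 * w.k ^ 2 * d ^ 3 ≤ N →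
  growth w.X (N ^ 3) ≤ N ^ d →
  ∃ (V : Type u) (_ : NormedAddCommGroup V) (_ : InnerProductSpace ℝ V)
    (π : G →* (V ≃ₗᵢ[ℝ] V)) (b : G → V) (E : Submodule ℝ V) (_ : FiniteDimensional ℝ E),
    Module.finrank ℝ E ≤ 160 * d ∧
    IsAA w.X π b E (2 * √w.k) (10 ^ 7 * w.k * d ^ 3 / √N) ∧
    ∀ m q : ℕ, 10 ^ 9 * m * w.k ^ 2 * d ^ 3 ≤ √N → 32 * q ^ 2 * w.k ≤ m →
      ∃ T : Finset G, T.card = q ∧ (∀ t ∈ T, t ∈ ball w.X m) ∧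
        ∀ t ∈ T, ∀ t' ∈ T, t ≠ t' → 2 * √w.k ≤ ‖E.starProjection (b t - b t')‖

end Pool.Agent.Helper5.ST
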