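import Pool.Agent.Helper5.ST.GoalsC

/-!
The main induction.
-/

namespace Pool.Agent.Helper5.ST

open Pool.Agent.Helper5.Gap Filter Topology
open scoped InnerProductSpace commutatorElement

universe u

theorem Rk.mono {G : Type u} [Group G] {A B : Subgroup G} {m n : ℕ} (h : Rk A B m)
    (hmn : m ≤ n) : Rk A B n := by
  intro X hX k φ h1 h2 h3
  exact (h X hX k φ h1 h2 h3).trans hmn

theorem virtNilpotent_of_finite {G : Type u} [Group G] [Finite G] : VirtNilpotent G :=
  ⟨⊥, inferInstance, inferInstance⟩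

theorem mlen_mono (m ℓ : ℕ) (hℓ : 1 ≤ ℓ) {i j : ℕ} (h : i ≤ j) : mlen m ℓ i ≤ mlen m ℓ j := by
  induction h with
  | refl => exact le_rfl
  | @step k h ih =>
    refine ih.trans ?_
    show mlen m ℓ k ≤ m + mlen m ℓ k * ℓ
    have := Nat.mul_le_mul_left (mlen m ℓ k) hℓ
    omega

theorem mainThm (stp : SStep.{u}) (ext : SExt.{u}) (rkAdd : SRkAdd.{u}) (rkFin : SRkFin.{u})
    (rkMap : SRkMap.{u}) (vover : SVnOver.{u}) : SMain.{u} := by
  intro d M K r₀ r L ℓ m q J₀ ε hnum J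
  have hM0 : 0 < M := hnum.M1
  have hgrK : ∀ (G : Type u) [Group G] (X : Set G), growth X (M ^ 6) ≤ (M ^ 2) ^ d →
      growth X (M ^ 6) < 2 ^ K := fun G _ X h => lt_of_le_of_lt h hnum.MK
  induction J with
  | zero =>
    intro _ G _ X hX _ _ hq
    exfalso
    have := growth_pos hX (mlen m ℓ 0)
    rw [pow_zero] at hq
    omega
  | succ J ih =>
    intro hJ G _ X hX hXt hg hq
    rcases finite_or_infinite G with hfin | hinf
    · exact ⟨virtNilpotent_of_finite, (rkFin G ⊥ inferInstance).mono (Nat.zero_le _)⟩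
    · have hM6 : (M ^ 2) ^ 3 = M ^ 6 := by rw [← pow_mul]
      have hℓpos : 0 < ℓ ^ (J + 1) := Nat.pow_pos hnum.ℓ1
      have hg6 : growth X (M ^ 6) ≤ (M ^ 2) ^ d := by
        refine (growth_mono hX ?_).trans hg
        exact Nat.le_mul_of_pos_left _ hℓpos
      obtain ⟨H, S₀, hHfi, hS0fin, hS0t, hgS0, hfg, hperf, hvn, hrk, S₁, hS1fin, hS1t, hgS1,
        hq1⟩ := stp G X hX hXt d M K r₀ r L ℓ m q ε hnum.d1 hnum.M1 (by rw [hM6]; exact hg6)
          hnum.MK hnum.KM hnum.big hnum.pack hnum.eps hnum.near hnum.len hnum.eℓ hnum.deep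
          hnum.Lr hnum.rr hnum.R1 hnum.R2 hnum.mq hnum.mM
      have hε0 : 0 ≤ ε := by rw [hnum.eps]; positivity
      have hq2 := hq1 (mlen m ℓ J) (by
        refine le_trans ?_ hnum.J2
        have h1 : mlen m ℓ (J + 1) ≤ mlen m ℓ J₀ := mlen_mono m ℓ hnum.ℓ1 hJ
        have h2 : (mlen m ℓ J : ℝ) * ℓ + m ≤ mlen m ℓ J₀ := by
          have h3 : mlen m ℓ J * ℓ + m ≤ mlen m ℓ J₀ := by
            rw [add_comm]
            exact h1
          exact_mod_cast h3
        gcongr)
      obtain ⟨hPvn, hPrk⟩ := ih (by omega) (derivedSeries H r) S₁ hS1fin hS1t (by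
          refine (hgS1 _).trans ?_
          rw [← mul_assoc, ← pow_succ']
          exact hg) (by
          by_contra hcon
          have hcon' : q ^ J ≤ growth S₁ (mlen m ℓ J) := not_lt.1 hcon
          have h1 : q * q ^ J ≤ growth X (m + mlen m ℓ J * ℓ) :=
            (Nat.mul_le_mul_left q hcon').trans hq2
          have h2 : growth X (m + mlen m ℓ J * ℓ) < q ^ (J + 1) := hq
          rw [pow_succ'] at h2
          omega)
      have hPrk' := rkMap H (derivedSeries H r) _ hPrk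
      have hHvn : VirtNilpotent H := by
        refine ext H S₀ hS0fin hS0t (derivedSeries H r) hfg hperf hvn hPvn (J * (r * K)) K
          (33 * (J₀ * (r * K) + 1) ^ 6 * K) hPrk' ?_ ?_
        · refine lt_of_le_of_lt (hgS0 _) ?_
          exact lt_of_le_of_lt (growth_mono hX hnum.R3) (hgrK G X hg6)
        · have : J * (r * K) ≤ J₀ * (r * K) := Nat.mul_le_mul_right _ (by omega)
          gcongr
      refine ⟨vover G H hHfi hHvn, ?_⟩
      have h1 := rkAdd H ⊤ (derivedSeries H r) ⊥ (r * K) (J * (r * K)) le_top hrk hPrk'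
      have h2 := rkMap G H _ h1
      have h3 := rkAdd G ⊤ H ⊥ 0 _ le_top (rkFin G H hHfi) h2
      refine h3.mono (le_of_eq ?_)
      ring

theorem scaleThm (main : SMain.{u}) (num : SNum) : SScale.{u} := by
  obtain ⟨C₀, hC, h⟩ := num
  refine ⟨C₀, hC, fun d v hd hv G _ X hX hXt hg => ?_⟩
  obtain ⟨M, K, r₀, r, L, ℓ, m, q, J, ε, hnum, h1, h2⟩ := h d v hd hv
  rw [← h1] at hg
  have hg' : growth X (ℓ ^ J * M ^ 6) ≤ (M ^ 2) ^ d := (growth_mono hX h2).trans hg
  exact (main d M K r₀ r L ℓ m q J ε hnum J le_rfl G X hX hXt hg'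
    (lt_of_le_of_lt ((growth_mono hX hnum.J3).trans hg') hnum.J1)).1

end Pool.Agent.Helper5.ST
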