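import Pool.Agent.Helper5.ST.GoalsC

/-!
Assembly of one step.
-/

namespace Pool.Agent.Helper5.ST

open Pool.Agent.Helper5.Gap Filter Topology
open scoped InnerProductSpace commutatorElement

universe u

theorem closure_preimage_eq_top {H : Type*} [Group H] (P : Subgroup H) (U : Set H)
    (h : Subgroup.closure U = P) : Subgroup.closure (Subtype.val ⁻¹' U : Set P) = ⊤ := by
  subst h
  exact Subgroup.closure_closure_coe_preimage

theorem IsAA.mono {G : Type u} [Group G] {V : Type u} [NormedAddCommGroup V]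
    [InnerProductSpace ℝ V] {X : Set G} {π : G →* (V ≃ₗᵢ[ℝ] V)} {b : G → V}
    {E : Submodule ℝ V} [FiniteDimensional ℝ E] {β ε ε' : ℝ} (h : IsAA X π b E β ε)
    (hε : ε ≤ ε') : IsAA X π b E β ε' :=
  { coc := h.coc
    b_le := h.b_le
    inv := fun s hs x hx =>
      (h.inv s hs x hx).trans (mul_le_mul_of_nonneg_right hε (norm_nonneg _))
    ε0 := h.ε0.trans hε
    β0 := h.β0 }

theorem step (ana : SAna.{u}) (near : SNear.{u}) (chain : SChain.{u})
    (direct : SDirect.{u}) (mil : SMil.{u}) (struct : SStruct.{u}) (sel : SSel.{u})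
    (tr : STr.{u}) (gsub : SGsub.{u}) (rkDer : SRkDer.{u}) : SStep.{u} := by
  intro G _ _ X hX hXt d M K r₀ r L ℓ m q ε hd hM hgr hMK hKM hbig hpack hε hnear hℓ heℓ hdeep hLr
    hrr hR1 hR2 hmq hmM
  have hM0 : (0 : ℝ) < M := by exact_mod_cast (by omega : 0 < M)
  have hK1 : 1 ≤ K := by
    by_contra hK0
    have : K = 0 := by omega
    subst this
    rw [pow_zero, Nat.lt_one_iff] at hMK
    have : 0 < (M ^ 2) ^ d := by positivity
    omega
  have hM6 : (M ^ 2) ^ 3 = M ^ 6 := by rw [← pow_mul]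
  have hgr6 : growth X (M ^ 6) < 2 ^ K := by rw [← hM6]; exact lt_of_le_of_lt hgr hMK
  have hgrK : growth X K < 2 ^ K := by
    refine lt_of_le_of_lt (growth_mono hX ?_) hgr6
    exact hKM.trans (Nat.le_self_pow (by norm_num) M)
  obtain ⟨w, hw1, hw2, hw3⟩ := sel G X hX hXt K hgrK
  have hwX : ∀ n, growth w.X n ≤ growth X n := by
    intro n
    have := (gsub G X w.X 1 hX hw1 n).2
    rwa [one_mul] at this
  have hsq : √(((M ^ 2 : ℕ) : ℝ)) = M := by
    push_cast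
    exact Real.sqrt_sq hM0.le
  have hk0 : (0 : ℝ) < w.k := w.k_pos
  have hK0 : (0 : ℝ) ≤ K := Nat.cast_nonneg K
  have hkK2 : w.k ^ 2 ≤ (K : ℝ) ^ 2 := by gcongr
  obtain ⟨V, _, _, π, b, E, _, hE, hAA, hT⟩ := ana G w hw2 d (M ^ 2) hd (by
    have h1 : (10 ^ 12 * (K : ℝ) ^ 2 * d ^ 3) ≤ ((M ^ 2 : ℕ) : ℝ) := by exact_mod_cast hbig
    refine le_trans ?_ h1
    gcongr) ((hwX _).trans hgr)
  have hεle : 10 ^ 7 * w.k * d ^ 3 / √(((M ^ 2 : ℕ) : ℝ)) ≤ ε := by
    rw [hsq, hε]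
    gcongr
  have hAA' := hAA.mono hεle
  obtain ⟨β, hβ⟩ : ∃ β : ℝ, β = 2 * √w.k := ⟨_, rfl⟩
  rw [← hβ] at hAA'
  have hβ0 : 0 < β := hAA'.β0
  have hε0 : 0 ≤ ε := hAA'.ε0
  obtain ⟨T, hT1, hT2, hT3⟩ := hT m q (by
    rw [hsq]
    have h1 : (10 ^ 9 * (m : ℝ) * K ^ 2 * d ^ 3) ≤ M := by exact_mod_cast hmM
    refine le_trans ?_ h1
    gcongr) (by
    have h1 : (32 * (q : ℝ) ^ 2 * K) ≤ m := by exact_mod_cast hmq
    refine le_trans ?_ h1
    gcongr)
  rw [← hβ] at hT3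
  obtain ⟨S₀, hS1, hS2, hS3⟩ := near G w.X V π b E β ε hAA' w.X_finite hw2 r₀ (by
    refine le_trans (Nat.pow_le_pow_right (by norm_num) ?_) hpack
    exact Nat.pow_le_pow_left hE 2) hnear
  have hS0fin : S₀.Finite := (ball_finite w.X_finite _).subset hS1
  obtain ⟨H, hH⟩ : ∃ H : Subgroup G, H = Subgroup.closure S₀ := ⟨_, rfl⟩
  have hHfi : H.FiniteIndex := by rw [hH]; exact hS3
  obtain ⟨S₀', hS₀'⟩ : ∃ S₀' : Set H, S₀' = Subtype.val ⁻¹' S₀ := ⟨_, rfl⟩
  have hS0'fin : S₀'.Finite := by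
    rw [hS₀']
    exact hS0fin.preimage Subtype.val_injective.injOn
  have hS0't : Subgroup.closure S₀' = ⊤ := by
    rw [hS₀']
    exact closure_preimage_eq_top H S₀ hH.symm
  have himg : H.subtype '' S₀' = S₀ := by
    rw [hS₀']
    ext x
    constructor
    · rintro ⟨y, hy, rfl⟩
      exact hy
    · intro hx
      refine ⟨⟨x, ?_⟩, hx, rfl⟩
      rw [hH]
      exact Subgroup.subset_closure hx
  have hgS0 : ∀ n, growth S₀' n ≤ growth X ((2 * r₀ + 1) * n) := by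
    intro n
    have h1 := (tr H G H.subtype H.subtype_injective S₀' K n hS0'fin).2.1
    rw [himg] at h1
    rw [← h1]
    exact ((gsub G w.X S₀ (2 * r₀ + 1) w.X_finite hS1 n).2).trans (hwX _)
  have hM46 : M ^ 4 ≤ M ^ 6 := Nat.pow_le_pow_right hM (by norm_num)
  have hgR1 : growth S₀' (136 * 4 ^ 18 * K ^ 20) < 2 ^ K :=
    lt_of_le_of_lt ((hgS0 _).trans (growth_mono hX (hR1.trans hM46))) hgr6
  have hgR2 : growth S₀' (K * (4 ^ r * (K + 1))) < 2 ^ K :=
    lt_of_le_of_lt ((hgS0 _).trans (growth_mono hX (hR2.trans hM46))) hgr6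
  obtain ⟨st1, st2, st3⟩ := struct H S₀' hS0'fin hS0't K hK1 hgR1 r hrr
  have hmil := mil H S₀' hS0'fin hS0't K _ r hgR2 le_rfl r le_rfl
  have hrk := rkDer H S₀' hS0'fin hS0't K _ r hgR2 le_rfl
  obtain ⟨U, hU⟩ : ∃ U : Set G, U = UU S₀ K r := ⟨_, rfl⟩
  have htrU : H.subtype '' UU S₀' K r = U := by
    have h1 := (tr H G H.subtype H.subtype_injective S₀' K r hS0'fin).2.2
    rw [himg] at h1
    rw [hU]
    exact h1
  have hchain := chain G w.X V π b E β ε hAA' S₀ (2 * r₀ + 1) K r L hS1 hS2 hLr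
    (by rw [← hℓ]; exact heℓ) (by rw [← hℓ]; exact hdeep)
  rw [← hℓ, ← hU] at hchain
  have hUb : U ⊆ ball w.X ℓ := fun s hs => (hchain s hs).1
  have hUfin : U.Finite := (ball_finite w.X_finite _).subset hUb
  have hU'fin : (UU S₀' K r).Finite := by
    refine Set.Finite.of_finite_image ?_ H.subtype_injective.injOn
    rw [htrU]
    exact hUfin
  refine ⟨H, S₀', hHfi, hS0'fin, hS0't, hgS0, st1, ?_, st3, hrk,
    Subtype.val ⁻¹' (UU S₀' K r), hU'fin.preimage Subtype.val_injective.injOn,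
    closure_preimage_eq_top _ _ hmil, ?_⟩
  · rw [← derivedSeries_succ, st2]
  have himg2 : (derivedSeries H r).subtype '' (Subtype.val ⁻¹' (UU S₀' K r)) = UU S₀' K r := by
    ext x
    constructor
    · rintro ⟨y, hy, rfl⟩
      exact hy
    · intro hx
      refine ⟨⟨x, ?_⟩, hx, rfl⟩
      rw [← hmil]
      exact Subgroup.subset_closure hx
  have hg1 : ∀ n, growth (Subtype.val ⁻¹' (UU S₀' K r) : Set (derivedSeries H r)) n =
      growth U n := by
    intro n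
    have h1 := (tr (derivedSeries H r) H (derivedSeries H r).subtype
      (derivedSeries H r).subtype_injective (Subtype.val ⁻¹' (UU S₀' K r)) K n
      (hU'fin.preimage Subtype.val_injective.injOn)).2.1
    have h2 := (tr H G H.subtype H.subtype_injective (UU S₀' K r) K n hU'fin).2.1
    rw [himg2] at h1
    rw [htrU] at h2
    rw [← h1, ← h2]
  refine ⟨fun n => ?_, fun m₁ hm₁ => ?_⟩
  · rw [hg1]
    exact ((gsub G w.X U ℓ w.X_finite hUb n).2).trans (hwX _)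
  · rw [hg1]
    have hdir := direct G w.X V π b E β ε hAA' w.X_finite U ℓ m m₁ (170 * β * ε * ℓ ^ 2) T hUb
      (fun s hs => (hchain s hs).2) hT2 hT3 ?_
    · rw [hT1] at hdir
      exact hdir.trans (hwX _)
    · rcases Nat.eq_zero_or_pos m₁ with h0 | h0
      · subst h0
        simpa using hβ0
      · have hm1 : (1 : ℝ) ≤ m₁ := by exact_mod_cast h0
        have hℓ0 : (0 : ℝ) ≤ ℓ := Nat.cast_nonneg ℓ
        have hm0 : (0 : ℝ) ≤ m := Nat.cast_nonneg m
        have e1 : (m₁ : ℝ) * ℓ ^ 2 ≤ (m₁ * ℓ) ^ 2 := by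
          have : (m₁ : ℝ) * ℓ ^ 2 * 1 ≤ (m₁ : ℝ) * ℓ ^ 2 * m₁ := by gcongr
          nlinarith
        have e2 : (m₁ * (ℓ : ℝ)) ^ 2 ≤ (m₁ * ℓ + m) ^ 2 := by
          gcongr
          linarith
        have e3 : (m : ℝ) * (m₁ * ℓ) ≤ (m₁ * ℓ + m) ^ 2 := by
          nlinarith [mul_nonneg (Nat.cast_nonneg (α := ℝ) m₁) hℓ0]
        have e4 : 2 * (m₁ * (170 * β * ε * ℓ ^ 2) + ε * β * (m₁ * ℓ) ^ 2 +
            ε * β * m * (m₁ * ℓ)) =
            β * (ε * (340 * (m₁ * ℓ ^ 2) + 2 * (m₁ * ℓ) ^ 2 + 2 * (m * (m₁ * ℓ)))) := by ring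
        rw [e4]
        have e5 : ε * (340 * (m₁ * ℓ ^ 2) + 2 * (m₁ * ℓ) ^ 2 + 2 * (m * (m₁ * ℓ))) ≤
            ε * (344 * (m₁ * ℓ + m) ^ 2) := by
          gcongr
          linarith
        have e6 : ε * (344 * (m₁ * ℓ + m) ^ 2) < 1 := by
          have : 0 ≤ ε * (m₁ * ℓ + m) ^ 2 := by positivity
          nlinarith
        calc β * (ε * (340 * (m₁ * ℓ ^ 2) + 2 * (m₁ * ℓ) ^ 2 + 2 * (m * (m₁ * ℓ))))
            ≤ β * (ε * (344 * (m₁ * ℓ + m) ^ 2)) := by gcongr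
          _ < β * 1 := by gcongr
          _ = β := mul_one β

end Pool.Agent.Helper5.ST
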