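import Pool.Agent.Helper5.ST.Defs

/-!
Basic properties of `Walk.mean`, `Walk.mu`.
-/

namespace Pool.Agent.Helper5.ST

open Pool.Agent.Helper5.Gap
open scoped InnerProductSpace commutatorElement

universe u

variable {G : Type u} [Group G] (w : Walk G)

namespace Walk

theorem k_pos : 0 < w.k := lt_of_lt_of_le one_pos w.k1

theorem p_pos (i : w.I) : 0 < w.p i :=
  lt_of_lt_of_le (by have := w.k_pos; positivity) (w.p_low i)

theorem p_nonneg (i : w.I) : 0 ≤ w.p i := (w.p_pos i).le

theorem p_le_one (i : w.I) : w.p i ≤ 1 := by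
  rw [← w.p_sum]
  exact Finset.single_le_sum (fun j _ => w.p_nonneg j) (Finset.mem_univ i)

/-- The involution as an equivalence. -/
def invE : w.I ≃ w.I := ⟨w.inv, w.inv, w.inv_inv, w.inv_inv⟩

theorem s_mem_X (i : w.I) : w.s i ∈ w.X := Set.mem_range_self i

theorem one_mem_X : (1 : G) ∈ w.X := ⟨w.i₀, w.s_i₀⟩

theorem s_mem_ball (i : w.I) : w.s i ∈ ball w.X 1 := mem_ball_one (w.s_mem_X i)

theorem mem_B {n : ℕ} {g : G} : g ∈ w.B n ↔ g ∈ ball w.X n := by
  simp [Walk.B]

theorem card_B (n : ℕ) : (w.B n).card = growth w.X n := by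
  unfold growth Walk.B
  rw [Set.ncard_eq_toFinset_card _ (ball_finite w.X_finite n)]

theorem B_mono {m n : ℕ} (h : m ≤ n) : w.B m ⊆ w.B n := by
  intro g hg
  rw [mem_B] at hg ⊢
  exact ball_mono h hg

section mean

variable {W : Type*} [AddCommGroup W] [Module ℝ W]

@[simp] theorem mean_zero (f : G → W) : w.mean 0 f = f 1 := rfl

theorem mean_succ (n : ℕ) (f : G → W) :
    w.mean (n + 1) f = ∑ i, w.p i • w.mean n (fun g => f (w.s i * g)) := rfl

theorem mean_congr {n : ℕ} {f f' : G → W} (h : ∀ g ∈ ball w.X n, f g = f' g) :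
    w.mean n f = w.mean n f' := by
  induction n generalizing f f' with
  | zero => exact h 1 (one_mem_ball 0)
  | succ n ih =>
    rw [mean_succ, mean_succ]
    refine Finset.sum_congr rfl (fun i _ => ?_)
    rw [ih]
    intro g hg
    apply h
    rw [add_comm]
    exact mul_mem_ball (w.s_mem_ball i) hg

theorem mean_add (n : ℕ) (f f' : G → W) :
    w.mean n (fun g => f g + f' g) = w.mean n f + w.mean n f' := by
  induction n generalizing f f' with
  | zero => rfl
  | succ n ih => simp only [mean_succ, ih, smul_add, Finset.sum_add_distrib]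

theorem mean_zero_fun (n : ℕ) : w.mean n (fun _ => (0 : W)) = 0 := by
  induction n with
  | zero => rfl
  | succ n ih => simp [mean_succ, ih]

theorem mean_const (n : ℕ) (c : W) : w.mean n (fun _ => c) = c := by
  induction n with
  | zero => rfl
  | succ n ih => rw [mean_succ]; simp only [ih]; rw [← Finset.sum_smul, w.p_sum, one_smul]

theorem mean_smul (n : ℕ) (c : ℝ) (f : G → W) :
    w.mean n (fun g => c • f g) = c • w.mean n f := by
  induction n generalizing f with
  | zero => rfl
  | succ n ih =>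
    simp only [mean_succ, ih, Finset.smul_sum]
    refine Finset.sum_congr rfl (fun i _ => ?_)
    rw [smul_comm]

theorem mean_neg (n : ℕ) (f : G → W) : w.mean n (fun g => - f g) = - w.mean n f := by
  have := w.mean_smul n (-1) f
  simpa using this

theorem mean_sub (n : ℕ) (f f' : G → W) :
    w.mean n (fun g => f g - f' g) = w.mean n f - w.mean n f' := by
  simp only [sub_eq_add_neg, mean_add, mean_neg]

theorem mean_sum {ι : Type*} (t : Finset ι) (n : ℕ) (f : ι → G → W) :
    w.mean n (fun g => ∑ j ∈ t, f j g) = ∑ j ∈ t, w.mean n (f j) := by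
  classical
  induction t using Finset.induction_on with
  | empty => simp [mean_zero_fun]
  | insert a t ha ih => simp only [Finset.sum_insert ha, mean_add, ih]

theorem mean_map {W' : Type*} [AddCommGroup W'] [Module ℝ W'] (L : W →ₗ[ℝ] W') (n : ℕ)
    (f : G → W) : L (w.mean n f) = w.mean n (fun g => L (f g)) := by
  induction n generalizing f with
  | zero => rfl
  | succ n ih => simp only [mean_succ, map_sum, map_smul, ih]

theorem mean_add_time (m n : ℕ) (f : G → W) :
    w.mean (m + n) f = w.mean m (fun g => w.mean n (fun h => f (g * h))) := by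
  induction m generalizing f with
  | zero => simp
  | succ m ih =>
    rw [Nat.succ_add, mean_succ, mean_succ]
    refine Finset.sum_congr rfl (fun i _ => ?_)
    rw [ih]
    simp only [mul_assoc]

theorem mean_one (f : G → W) : w.mean 1 f = ∑ i, w.p i • f (w.s i) := by
  rw [mean_succ]; simp

theorem mean_succ' (n : ℕ) (f : G → W) :
    w.mean (n + 1) f = w.mean n (fun g => ∑ i, w.p i • f (g * w.s i)) := by
  rw [mean_add_time]
  simp only [mean_one]

theorem mean_succ'' (n : ℕ) (f : G → W) :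
    w.mean (n + 1) f = ∑ i, w.p i • w.mean n (fun g => f (g * w.s i)) := by
  rw [mean_succ', mean_sum]
  simp only [mean_smul]

theorem mean_inv (n : ℕ) (f : G → W) : w.mean n (fun g => f g⁻¹) = w.mean n f := by
  induction n generalizing f with
  | zero => simp
  | succ n ih =>
    rw [mean_succ, mean_succ'']
    have : ∀ i, w.mean n (fun g => f (w.s i * g)⁻¹) = w.mean n (fun g => f (g * w.s (w.inv i))) := by
      intro i
      rw [← ih (fun g => f (g * w.s (w.inv i)))]
      simp only [mul_inv_rev, w.s_inv]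
    simp only [this]
    have h2 := Equiv.sum_comp w.invE (fun i => w.p i • w.mean n (fun g => f (g * w.s i)))
    rw [← h2]
    refine Finset.sum_congr rfl (fun i _ => ?_)
    show w.p i • _ = w.p (w.inv i) • _
    rw [w.p_inv]
    rfl

end mean

section real

theorem mean_mono {n : ℕ} {f f' : G → ℝ} (h : ∀ g ∈ ball w.X n, f g ≤ f' g) :
    w.mean n f ≤ w.mean n f' := by
  induction n generalizing f f' with
  | zero => exact h 1 (one_mem_ball 0)
  | succ n ih =>
    rw [mean_succ, mean_succ]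
    refine Finset.sum_le_sum (fun i _ => ?_)
    refine mul_le_mul_of_nonneg_left (ih ?_) (w.p_nonneg i)
    intro g hg
    apply h
    rw [add_comm]
    exact mul_mem_ball (w.s_mem_ball i) hg

theorem mean_nonneg {n : ℕ} {f : G → ℝ} (h : ∀ g ∈ ball w.X n, 0 ≤ f g) : 0 ≤ w.mean n f := by
  have := w.mean_mono (n := n) (f := fun _ => (0 : ℝ)) (f' := f) h
  rwa [mean_const] at this

theorem mean_le_const {n : ℕ} {f : G → ℝ} {c : ℝ} (h : ∀ g ∈ ball w.X n, f g ≤ c) :
    w.mean n f ≤ c := by
  have := w.mean_mono (n := n) (f := f) (f' := fun _ => c) h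
  rwa [mean_const] at this

theorem mean_mul_const (n : ℕ) (f : G → ℝ) (c : ℝ) :
    w.mean n (fun g => f g * c) = w.mean n f * c := by
  have := w.mean_smul n c f
  simp only [smul_eq_mul] at this
  rw [mul_comm, ← this]
  simp only [mul_comm]

theorem mean_const_mul (n : ℕ) (c : ℝ) (f : G → ℝ) :
    w.mean n (fun g => c * f g) = c * w.mean n f := by
  simpa only [smul_eq_mul] using w.mean_smul n c f

theorem norm_mean_le {W : Type*} [NormedAddCommGroup W] [NormedSpace ℝ W] (n : ℕ) (f : G → W) :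
    ‖w.mean n f‖ ≤ w.mean n (fun g => ‖f g‖) := by
  induction n generalizing f with
  | zero => simp
  | succ n ih =>
    rw [mean_succ, mean_succ]
    refine (norm_sum_le _ _).trans (Finset.sum_le_sum (fun i _ => ?_))
    rw [norm_smul, Real.norm_of_nonneg (w.p_nonneg i)]
    exact mul_le_mul_of_nonneg_left (ih _) (w.p_nonneg i)

/-- Cauchy–Schwarz. -/
theorem mean_mul_sq_le (n : ℕ) (f f' : G → ℝ) :
    (w.mean n (fun g => f g * f' g)) ^ 2 ≤
      w.mean n (fun g => f g ^ 2) * w.mean n (fun g => f' g ^ 2) := by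
  have h0 : ∀ x : ℝ, 0 ≤ w.mean n (fun g => f' g ^ 2) * (x * x) +
      (2 * w.mean n (fun g => f g * f' g)) * x + w.mean n (fun g => f g ^ 2) := by
    intro x
    have h1 : 0 ≤ w.mean n (fun g => (f g + x * f' g) ^ 2) :=
      w.mean_nonneg (fun g _ => sq_nonneg _)
    have h2 : w.mean n (fun g => (f g + x * f' g) ^ 2) = w.mean n (fun g => f' g ^ 2) * (x * x) +
      (2 * w.mean n (fun g => f g * f' g)) * x + w.mean n (fun g => f g ^ 2) := by
      rw [← w.mean_mul_const, ← w.mean_const_mul, ← w.mean_mul_const, ← w.mean_add, ← w.mean_add]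
      congr 1
      ext g
      ring
    rw [← h2]
    exact h1
  have h3 := discrim_le_zero h0
  unfold discrim at h3
  nlinarith [h3]

theorem mean_sq_le (n : ℕ) (f : G → ℝ) :
    (w.mean n f) ^ 2 ≤ w.mean n (fun g => f g ^ 2) := by
  have := w.mean_mul_sq_le n f (fun _ => 1)
  simpa [mean_const] using this

end real

section mu

theorem mu_nonneg (n : ℕ) (g : G) : 0 ≤ w.mu n g := by
  unfold mu
  refine w.mean_nonneg (fun h _ => ?_)
  split_ifs <;> norm_num

theorem mu_eq_zero {n : ℕ} {g : G} (h : g ∉ ball w.X n) : w.mu n g = 0 := by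
  classical
  unfold mu
  rw [w.mean_congr (f' := fun _ => (0 : ℝ)), mean_zero_fun]
  intro h' hh'
  rw [if_neg]
  rintro rfl
  exact h hh'

theorem mean_eq_sum {W : Type*} [AddCommGroup W] [Module ℝ W] {n : ℕ} (f : G → W)
    {t : Finset G} (ht : w.B n ⊆ t) : w.mean n f = ∑ g ∈ t, w.mu n g • f g := by
  classical
  have h1 : w.mean n f = w.mean n (fun h => ∑ g ∈ t, (if h = g then (1 : ℝ) else 0) • f g) := by
    refine w.mean_congr (fun h hh => ?_)
    rw [Finset.sum_eq_single h]
    · simp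
    · intro b _ hb
      rw [if_neg hb.symm, zero_smul]
    · intro hn
      exact absurd (ht (w.mem_B.2 hh)) hn
  rw [h1, mean_sum]
  refine Finset.sum_congr rfl (fun g _ => ?_)
  have h2 := w.mean_map ((LinearMap.id (R := ℝ) (M := ℝ)).smulRight (f g)) n
    (fun h => if h = g then (1 : ℝ) else 0)
  simp only [LinearMap.smulRight_apply, LinearMap.id_coe, id_eq] at h2
  rw [← h2]
  unfold mu
  congr! 4

theorem sum_mu {n : ℕ} {t : Finset G} (ht : w.B n ⊆ t) : ∑ g ∈ t, w.mu n g = 1 := by
  have := w.mean_eq_sum (fun _ => (1 : ℝ)) ht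
  rw [mean_const] at this
  simpa using this.symm

theorem mu_succ (n : ℕ) (g : G) :
    w.mu (n + 1) g = ∑ i, w.p i * w.mu n ((w.s i)⁻¹ * g) := by
  classical
  unfold mu
  rw [mean_succ]
  refine Finset.sum_congr rfl (fun i _ => ?_)
  rw [smul_eq_mul]
  congr 1
  refine w.mean_congr (fun h _ => ?_)
  have : (w.s i * h = g) ↔ (h = (w.s i)⁻¹ * g) := by
    constructor
    · rintro rfl; simp
    · rintro rfl; simp
  simp only [this]

theorem mu_inv (n : ℕ) (g : G) : w.mu n g⁻¹ = w.mu n g := by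
  classical
  unfold mu
  rw [← w.mean_inv]
  refine w.mean_congr (fun h _ => ?_)
  simp only [inv_inj]

theorem mu_le_one (n : ℕ) (g : G) : w.mu n g ≤ 1 := by
  classical
  unfold mu
  refine w.mean_le_const (fun h _ => ?_)
  split_ifs <;> norm_num

/-- Translating: `E f(s g)` as a sum against the translated measure. -/
theorem mean_translate {W : Type*} [AddCommGroup W] [Module ℝ W] {n : ℕ} (f : G → W) (i : w.I)
    {t : Finset G} (ht : w.B (n + 1) ⊆ t) :
    w.mean n (fun g => f (w.s i * g)) = ∑ g ∈ t, w.mu n ((w.s i)⁻¹ * g) • f g := by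
  classical
  rw [w.mean_eq_sum (fun g => f (w.s i * g)) (Finset.Subset.refl (w.B n))]
  have h1 : ∑ g ∈ w.B n, w.mu n g • f (w.s i * g) =
      ∑ g ∈ (w.B n).image (fun g => w.s i * g), w.mu n ((w.s i)⁻¹ * g) • f g := by
    rw [Finset.sum_image (fun a _ b _ h => mul_left_cancel h)]
    simp
  rw [h1]
  refine Finset.sum_subset ?_ ?_
  · intro g hg
    obtain ⟨h, hh, rfl⟩ := Finset.mem_image.1 hg
    apply ht
    rw [mem_B] at hh ⊢
    rw [add_comm]
    exact mul_mem_ball (w.s_mem_ball i) hh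
  · intro g _ hg
    rw [w.mu_eq_zero, zero_smul]
    intro h
    apply hg
    refine Finset.mem_image.2 ⟨(w.s i)⁻¹ * g, w.mem_B.2 h, by simp⟩

end mu

section rep

variable {V : Type u} [NormedAddCommGroup V] [InnerProductSpace ℝ V]

/-- The averaging operator. -/
noncomputable def Q (π : G →* (V ≃ₗᵢ[ℝ] V)) : V →ₗ[ℝ] V :=
  ∑ i, w.p i • ((π (w.s i)).toLinearEquiv : V →ₗ[ℝ] V)

variable (π : G →* (V ≃ₗᵢ[ℝ] V))

theorem Q_apply (v : V) : w.Q π v = ∑ i, w.p i • π (w.s i) v := by
  simp [Q]

theorem mean_rep (n : ℕ) (v : V) : w.mean n (fun g => π g v) = ((w.Q π) ^ n) v := by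
  induction n with
  | zero => simp
  | succ n ih =>
    rw [mean_succ, pow_succ', Module.End.mul_apply, ← ih, Q_apply]
    refine Finset.sum_congr rfl (fun i _ => ?_)
    congr 1
    have := w.mean_map ((π (w.s i)).toLinearEquiv : V →ₗ[ℝ] V) n (fun g => π g v)
    simp only [LinearEquiv.coe_coe, LinearIsometryEquiv.coe_toLinearEquiv] at this
    rw [this]
    simp only [map_mul]
    rfl

theorem mean_inner_left (n : ℕ) (f : G → V) (v : V) :
    w.mean n (fun g => ⟪f g, v⟫_ℝ) = ⟪w.mean n f, v⟫_ℝ := by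
  have := w.mean_map ((innerₛₗ ℝ v)) n f
  simp only [innerₛₗ_apply_apply] at this
  simp only [real_inner_comm _ v] at this
  exact this.symm

omit w in
theorem rep_mul (g h : G) (v : V) : π (g * h) v = π g (π h v) := by
  rw [map_mul]; rfl

omit w in
theorem rep_one (v : V) : π 1 v = v := by
  rw [map_one]; rfl

omit w in
theorem rep_inv_rep (g : G) (v : V) : π g⁻¹ (π g v) = v := by
  rw [← rep_mul, inv_mul_cancel, rep_one]

omit w in
theorem rep_rep_inv (g : G) (v : V) : π g (π g⁻¹ v) = v := by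
  rw [← rep_mul, mul_inv_cancel, rep_one]

omit w in
theorem norm_rep (g : G) (v : V) : ‖π g v‖ = ‖v‖ := (π g).norm_map v

omit w in
theorem inner_rep (g : G) (v v' : V) : ⟪π g v, π g v'⟫_ℝ = ⟪v, v'⟫_ℝ := (π g).inner_map_map v v'

omit w in
theorem inner_rep_left (g : G) (v v' : V) : ⟪π g v, v'⟫_ℝ = ⟪v, π g⁻¹ v'⟫_ℝ := by
  rw [← inner_rep π g⁻¹ (π g v) v', rep_inv_rep]

theorem inner_Q (v v' : V) : ⟪w.Q π v, v'⟫_ℝ = ⟪v, w.Q π v'⟫_ℝ := by
  rw [Q_apply, Q_apply, sum_inner, inner_sum]
  have h2 := Equiv.sum_comp w.invE (fun i => ⟪v, w.p i • π (w.s i) v'⟫_ℝ)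
  rw [← h2]
  refine Finset.sum_congr rfl (fun i _ => ?_)
  show _ = ⟪v, w.p (w.inv i) • π (w.s (w.inv i)) v'⟫_ℝ
  rw [w.p_inv, w.s_inv, inner_smul_left, inner_smul_right, inner_rep_left]
  rfl

theorem inner_Q_pow (n : ℕ) (v v' : V) : ⟪((w.Q π) ^ n) v, v'⟫_ℝ = ⟪v, ((w.Q π) ^ n) v'⟫_ℝ := by
  induction n generalizing v v' with
  | zero => simp
  | succ n ih =>
    rw [pow_succ, Module.End.mul_apply, ih, inner_Q, ← Module.End.mul_apply, ← pow_succ']
    rw [← pow_succ]

omit w in
theorem coc_one (ξ : V) : coc π ξ 1 = 0 := by simp [coc]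

omit w in
theorem coc_mul (ξ : V) (g h : G) : coc π ξ (g * h) = coc π ξ g + π g (coc π ξ h) := by
  simp only [coc, rep_mul, map_sub]
  abel

end rep

end Walk

end Pool.Agent.Helper5.ST
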