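import Pool.Agent.Helper5.ST.Ana
import Pool.Agent.Helper5.ST.Step
import Pool.Agent.Helper5.ST.Main
import Pool.Agent.Helper94.ST.Reg
import Pool.Agent.Helper89.ST.Seq
import Pool.Agent.Helper90.ST.Lim
import Pool.Agent.Helper27.ST.WalkQ
import Pool.Agent.Helper27.ST.HelCS
import Pool.Agent.Helper27.ST.Uni
import Pool.Agent.Helper3.ST.Xi
import Pool.Agent.Helper77.ST.Mom
import Pool.Agent.Helper75.ST.Ws
import Pool.Agent.Helper11.ST.EntStep
import Pool.Agent.Helper11.ST.Ent
import Pool.Agent.Helper11.ST.Pack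
import Pool.Agent.Helper94.ST.Invt
import Pool.Agent.Helper32.Spec.Main
import Pool.Agent.Helper32.Spec.Direct
import Pool.Agent.Helper32.Spec.Small
import Pool.Agent.Helper94.ST.DK
import Pool.Agent.Helper94.ST.Gr
import Pool.Agent.Helper94.ST.Path
import Pool.Agent.Helper87.ST.NrApi
import Pool.Agent.Helper48.ST.Near
import Pool.Agent.Helper80.ST.Chain
import Pool.Agent.Helper98.ST.Mil
import Pool.Agent.Helper98.ST.Final
import Pool.Agent.Helper63.Gap.Struct
import Pool.Agent.Helper47.ST.Sel
import Pool.Agent.Helper50.ST.RkDer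
import Pool.Agent.Helper95.GG.Hall
import Pool.Agent.Helper95.GG.CharN
import Pool.Agent.Helper69.ST.Coc
import Pool.Agent.Helper67.ST.En
import Pool.Agent.Helper10.ST.Num

/-!
The universal growth bound: assembly of all parts.
-/

namespace Pool.Agent.Helper5.ST

open Pool.Agent

universe u

theorem xi_all : SXi.{u} :=
  Helper3.ST.xi Helper89.ST.seq (Helper90.ST.lim Helper89.ST.seq) Helper27.ST.walkQ

theorem invt_all : SInvt.{u} := Helper94.ST.invt Helper27.ST.helCS Helper77.ST.mom

theorem en_all : SEn.{u} :=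
  Helper67.ST.en Helper27.ST.helCS Helper77.ST.mom invt_all Helper75.ST.ws

theorem ana_all : SAna.{u} :=
  ana Helper94.ST.reg xi_all Helper77.ST.mom (Helper11.ST.ent Helper11.ST.entStep) invt_all
    Helper32.Spec.spec Helper94.ST.dK en_all (Helper94.ST.gr Helper77.ST.mom) Helper94.ST.path

theorem step_all : SStep.{u} :=
  step ana_all (Helper48.ST.near Helper11.ST.pack Helper87.ST.nrApi)
    (Helper80.ST.chain Helper87.ST.nrApi) (Helper32.Spec.direct Helper87.ST.nrApi)
    Helper98.ST.mil Helper63.Gap.struct Helper47.ST.sel Helper32.Spec.tr Helper32.Spec.gsub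
    (Helper50.ST.rkDer Helper32.Spec.rkAdd)

theorem main_of (ext : SExt.{u}) : SMain.{u} :=
  mainThm step_all ext Helper32.Spec.rkAdd Helper32.Spec.rkFin Helper32.Spec.rkMap
    Helper32.Spec.vnOver

theorem final_of (ext : SExt.{u}) : SFinal.{u} :=
  Helper98.ST.finalThm (scaleThm (main_of ext) Helper10.ST.num)

end Pool.Agent.Helper5.ST
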