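import Pool.Agent.Helper5.ST.GoalsC

/-!
Assembly of the analytic part.
-/

namespace Pool.Agent.Helper5.ST

open Pool.Agent.Helper5.Gap Filter Topology
open scoped InnerProductSpace commutatorElement

universe u

/-- Infinite groups have at least linear growth. -/
theorem growth_lower {G : Type*} [Group G] [Infinite G] {X : Set G} (hX : X.Finite)
    (hXt : Subgroup.closure X = ⊤) (n : ℕ) : n + 1 ≤ growth X n := by
  induction n with
  | zero => exact growth_pos hX 0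
  | succ n ih =>
    have h1 : ball X n ⊂ ball X (n + 1) := by
      refine ⟨ball_mono (Nat.le_succ n), fun hsub => ?_⟩
      -- then `ball X n` is everything
      have h2 : ∀ m, ball X m ⊆ ball X n := by
        intro m
        induction m with
        | zero => exact ball_mono (Nat.zero_le n)
        | succ m ihm =>
          rintro g ⟨l, hl, hx, rfl⟩
          rcases l with _ | ⟨a, l⟩
          · exact one_mem_ball n
          · have h3 : l.prod ∈ ball X n := by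
              apply ihm
              exact ⟨l, by simpa using hl, fun x hx' => hx x (List.mem_cons_of_mem _ hx'), rfl⟩
            have h4 : a ∈ ball X 1 :=
              ⟨[a], by simp, by simpa using hx a List.mem_cons_self, by simp⟩
            rw [List.prod_cons]
            apply hsub
            rw [add_comm]
            exact mul_mem_ball h4 h3
      have h5 : (Set.univ : Set G) ⊆ ball X n := by
        intro g _
        obtain ⟨m, hm⟩ := exists_mem_ball hXt g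
        exact h2 m hm
      exact Set.infinite_univ ((ball_finite hX n).subset h5)
    have h6 := Set.ncard_lt_ncard h1 (ball_finite hX (n + 1))
    unfold growth at ih ⊢
    omega

theorem sq_log_bound {N : ℝ} (hN : 0 < N) : Real.log N ≤ 2 * √N := by
  have h1 : Real.log (√N) ≤ √N - 1 := Real.log_le_sub_one_of_pos (Real.sqrt_pos.2 hN)
  have h2 : Real.log (√N) = Real.log N / 2 := Real.log_sqrt hN.le
  linarith

theorem ana (reg : SReg.{u}) (xi : SXi.{u}) (mom : SMom.{u}) (ent : SEnt.{u})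
    (invt : SInvt.{u}) (spec : SSpec.{u}) (dk : SDK.{u}) (en : SEn.{u}) (gr : SGr.{u})
    (path : SPath.{u}) : SAna.{u} := by
  intro G _ _ w hgen d N hd hN hgr
  have hk1 : (1 : ℝ) ≤ w.k := w.k1
  have hk0 : (0 : ℝ) < w.k := w.k_pos
  have hd1 : (1 : ℝ) ≤ d := by exact_mod_cast hd
  have hd0 : (0 : ℝ) < d := by linarith
  have hk2 : (1 : ℝ) ≤ w.k ^ 2 := one_le_pow₀ hk1
  have hd3 : (1 : ℝ) ≤ (d : ℝ) ^ 3 := one_le_pow₀ hd1
  have hN12 : (10 : ℝ) ^ 12 ≤ N := by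
    refine le_trans ?_ hN
    have : (1 : ℝ) ≤ w.k ^ 2 * d ^ 3 := one_le_mul_of_one_le_of_one_le hk2 hd3
    nlinarith
  have hN0 : (0 : ℝ) < N := by linarith [show (0 : ℝ) < 10 ^ 12 by norm_num]
  have hNN : 10 ^ 12 ≤ N := by exact_mod_cast hN12
  have hN2 : 2 ≤ N := by omega
  have hsN : (0 : ℝ) < √(N : ℝ) := Real.sqrt_pos.2 hN0
  have hsN2 : √(N : ℝ) * √(N : ℝ) = N := Real.mul_self_sqrt hN0.le
  have hsN6 : (10 : ℝ) ^ 6 ≤ √(N : ℝ) := by
    apply Real.le_sqrt_of_sq_le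
    rw [← pow_mul]
    exact hN12
  -- `10^6 * d ≤ √N`
  have hdN : 10 ^ 6 * (d : ℝ) ≤ √(N : ℝ) := by
    apply Real.le_sqrt_of_sq_le
    have h1 : (d : ℝ) ^ 2 ≤ (d : ℝ) ^ 3 := pow_le_pow_right₀ hd1 (by norm_num)
    have h2 : (d : ℝ) ^ 3 ≤ w.k ^ 2 * d ^ 3 := le_mul_of_one_le_left (by positivity) hk2
    nlinarith
  have hlog1 : 1 ≤ Real.log N := by
    rw [Real.le_log_iff_exp_le hN0]
    have := Real.exp_one_lt_d9
    linarith [show (2.7182818286 : ℝ) ≤ 10 ^ 12 by norm_num]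
  have hlogs : Real.log N ≤ 2 * √(N : ℝ) := sq_log_bound hN0
  obtain ⟨L, hL⟩ : ∃ L : ℝ, L = d * Real.log N := ⟨_, rfl⟩
  have hL1 : 1 ≤ L := by rw [hL]; nlinarith
  have hL0 : 0 < L := by linarith
  have hLN : 100 * L ≤ N := by
    rw [hL]
    have : (d : ℝ) * Real.log N ≤ (√(N : ℝ) / 10 ^ 6) * (2 * √(N : ℝ)) := by
      apply mul_le_mul _ hlogs (by linarith) (by positivity)
      rw [le_div_iff₀ (by norm_num)]
      linarith
    have h2 : (√(N : ℝ) / 10 ^ 6) * (2 * √(N : ℝ)) = 2 * (√(N : ℝ) * √(N : ℝ)) / 10 ^ 6 := by ring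
    rw [h2, hsN2] at this
    linarith
  have hgrow0 : 0 < growth w.X (N ^ 3) := growth_pos w.X_finite _
  have hloggr : Real.log (growth w.X (N ^ 3)) ≤ L := by
    rw [hL]
    calc Real.log (growth w.X (N ^ 3)) ≤ Real.log ((N : ℝ) ^ d) := by
          apply Real.log_le_log (by exact_mod_cast hgrow0)
          exact_mod_cast hgr
      _ = d * Real.log N := by rw [Real.log_pow]
  have hexpL : Real.exp L = (N : ℝ) ^ d := by
    rw [hL, mul_comm, Real.exp_mul, Real.exp_log hN0, Real.rpow_natCast]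
  have hlow : N ^ 3 + 1 ≤ N ^ d := (growth_lower w.X_finite hgen (N ^ 3)).trans hgr
  obtain ⟨V, _, _, _, π, δ, hδ1, hδ2, hδ3⟩ := reg G
  obtain ⟨ξ, hξ⟩ := xi G w V π δ hδ1 hδ2 hδ3 hgen (N ^ 3) L (Nat.one_le_pow _ _ (by omega)) hL0
    hloggr (by
      push_cast
      have : (N : ℝ) ≤ N ^ 3 := le_self_pow₀ (by linarith) (by norm_num)
      linarith) (by
      rw [hexpL]
      push_cast
      have h1 : (N : ℝ) ^ 3 + 1 ≤ (N : ℝ) ^ d := by exact_mod_cast hlow
      have h2 : (N : ℝ) ^ d ≤ L * (N : ℝ) ^ d := le_mul_of_one_le_left (by positivity) hL1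
      linarith)
  obtain ⟨τ, hτ⟩ : ∃ τ : ℝ, τ = L / ((N ^ 3 : ℕ) : ℝ) := ⟨_, rfl⟩
  rw [← hτ] at hξ
  have hN3 : (0 : ℝ) < (N : ℝ) ^ 3 := by positivity
  have hτ' : τ = L / (N : ℝ) ^ 3 := by rw [hτ]; push_cast; rfl
  have hτ0 : 0 ≤ τ := by rw [hτ']; positivity
  obtain ⟨n, hn1, hn2, hn3⟩ := ent G w N L hN2 (by
    refine le_trans (Real.log_le_log (by exact_mod_cast growth_pos w.X_finite _) ?_) hloggr
    exact_mod_cast growth_mono w.X_finite (Nat.pow_le_pow_right (by omega) (by norm_num)))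
  have hn3' : (n : ℝ) * w.Hel n ≤ d := by
    refine hn3.trans (le_of_eq ?_)
    rw [hL]
    field_simp
  have hnN : (N : ℝ) ≤ n := by exact_mod_cast hn1
  have hn0 : (0 : ℝ) < n := by linarith
  have hn1' : 1 ≤ n := by omega
  have hnN2 : (n : ℝ) ≤ (N : ℝ) ^ 2 := by
    have : n ≤ N ^ 2 := hn2.le
    exact_mod_cast this
  have hnτ : (n : ℝ) * τ ≤ 1 / 100 := by
    rw [hτ', mul_div_assoc', div_le_div_iff₀ hN3 (by norm_num)]
    calc (n : ℝ) * L * 100 ≤ (N : ℝ) ^ 2 * L * 100 := by gcongr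
      _ = (N : ℝ) ^ 2 * (100 * L) := by ring
      _ ≤ (N : ℝ) ^ 2 * N := by gcongr
      _ = 1 * (N : ℝ) ^ 3 := by ring
  obtain ⟨m1, m2, m3, m4, m5⟩ := mom G w V π ξ τ hτ0 hξ
  -- the spectral subspace
  obtain ⟨E, hE, θ, e1, e2, e3, e4, e5, e6⟩ := spec V G (w.B n) (fun g => w.mu n g / n)
    (coc π ξ) (fun g _ => div_nonneg (w.mu_nonneg n g) hn0.le) (by
      have h1 := m4 n
      rw [w.mean_eq_sum _ (Finset.Subset.refl _)] at h1
      simp only [smul_eq_mul] at h1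
      have h2 : ∑ i ∈ w.B n, w.mu n i / n * ‖coc π ξ i‖ ^ 2 =
          (∑ i ∈ w.B n, w.mu n i * ‖coc π ξ i‖ ^ 2) / n := by
        rw [Finset.sum_div]
        refine Finset.sum_congr rfl (fun i _ => by ring)
      rw [h2, div_le_one hn0]
      exact h1) d hd
  have hform : ∀ v : V, ∑ g ∈ w.B n, w.mu n g / n * ⟪coc π ξ g, v⟫_ℝ ^ 2 =
      w.mean n (fun g => ⟪coc π ξ g, v⟫_ℝ ^ 2) / n := by
    intro v
    rw [w.mean_eq_sum _ (Finset.Subset.refl _), Finset.sum_div]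
    refine Finset.sum_congr rfl (fun i _ => ?_)
    rw [smul_eq_mul]; ring
  let T : V →ₗ[ℝ] V := ∑ g ∈ w.B n, (w.mu n g / n) •
    ((innerₛₗ ℝ (coc π ξ g)).smulRight (coc π ξ g))
  have hT : ∀ v, T v = ∑ g ∈ w.B n, (w.mu n g / n * ⟪coc π ξ g, v⟫_ℝ) • coc π ξ g := by
    intro v
    simp only [T, LinearMap.sum_apply, LinearMap.smul_apply, LinearMap.smulRight_apply,
      innerₛₗ_apply_apply, smul_smul]
  have hTT : ∀ v v', ⟪T v, v'⟫_ℝ =
      ∑ g ∈ w.B n, w.mu n g / n * ⟪coc π ξ g, v⟫_ℝ * ⟪coc π ξ g, v'⟫_ℝ := by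
    intro v v'
    rw [hT, sum_inner]
    refine Finset.sum_congr rfl (fun i _ => ?_)
    rw [real_inner_smul_left]
  have hTv : ∀ v, ⟪T v, v⟫_ℝ = w.mean n (fun g => ⟪coc π ξ g, v⟫_ℝ ^ 2) / n := by
    intro v
    rw [hTT, ← hform]
    refine Finset.sum_congr rfl (fun i _ => by ring)
  have hTsym : ∀ v v', ⟪T v, v'⟫_ℝ = ⟪v, T v'⟫_ℝ := by
    intro v v'
    rw [real_inner_comm, real_inner_comm _ v]
    rw [← real_inner_comm, hTT, hTT]
    refine Finset.sum_congr rfl (fun i _ => by ring)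
  have hTpos : ∀ v, 0 ≤ ⟪T v, v⟫_ℝ := by
    intro v
    rw [hTv]
    exact div_nonneg (w.mean_nonneg (fun g _ => sq_nonneg _)) hn0.le
  obtain ⟨ε₁, hε₁⟩ : ∃ ε₁ : ℝ, ε₁ = 200 * w.k * √(d * n) / n := ⟨_, rfl⟩
  have hε₁0 : 0 ≤ ε₁ := by rw [hε₁]; positivity
  have hkn : w.k ≤ n := by
    have h1 : w.k ≤ w.k ^ 2 := le_self_pow₀ hk1 (by norm_num)
    have h2 : w.k ^ 2 ≤ w.k ^ 2 * d ^ 3 := le_mul_of_one_le_right (by positivity) hd3
    nlinarith
  obtain ⟨ε, hε⟩ : ∃ ε : ℝ, ε = 10 ^ 7 * w.k * d ^ 3 / √N := ⟨_, rfl⟩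
  have hε0 : 0 ≤ ε := by rw [hε]; positivity
  have hεle : ε₁ / (1 / (26000 * (d : ℝ) ^ 2)) ≤ ε := by
    rw [hε₁, hε, Real.sqrt_mul hd0.le]
    have hsn : 0 < √(n : ℝ) := Real.sqrt_pos.2 hn0
    have hsn2 : √(n : ℝ) * √(n : ℝ) = n := Real.mul_self_sqrt hn0.le
    have h1 : 200 * w.k * (√(d : ℝ) * √(n : ℝ)) / n = 200 * w.k * √(d : ℝ) / √(n : ℝ) := by
      rw [div_eq_div_iff hn0.ne' hsn.ne']
      calc 200 * w.k * (√(d : ℝ) * √(n : ℝ)) * √(n : ℝ)
          = 200 * w.k * √(d : ℝ) * (√(n : ℝ) * √(n : ℝ)) := by ring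
        _ = _ := by rw [hsn2]
    rw [h1, div_div_eq_mul_div, div_one]
    have hsd : √(d : ℝ) ≤ d := by
      rw [Real.sqrt_le_left hd0.le]
      nlinarith
    calc 200 * w.k * √(d : ℝ) / √(n : ℝ) * (26000 * (d : ℝ) ^ 2)
        ≤ 200 * w.k * d / √(N : ℝ) * (26000 * (d : ℝ) ^ 2) := by
          gcongr
      _ = 5200000 * (w.k * d ^ 3) / √(N : ℝ) := by ring
      _ ≤ 10 ^ 7 * (w.k * d ^ 3) / √(N : ℝ) := by
          gcongr
          norm_num
      _ = 10 ^ 7 * w.k * d ^ 3 / √N := by ring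
  have hinv : ∀ i, ∀ x ∈ E, ‖π (w.s i) x - E.starProjection (π (w.s i) x)‖ ≤ ε * ‖x‖ := by
    intro i x hx
    refine (dk V E T (π (w.s i)) θ (1 / (26000 * (d : ℝ) ^ 2)) ε₁ hTsym hTpos ?_ ?_ ?_ e2
      (by positivity) hε₁0 ?_ x hx).trans ?_
    · intro v hv
      rw [hT]
      exact e4 v hv
    · intro v hv
      rw [hTv, ← hform]
      exact e5 v hv
    · intro v hv
      rw [hTv, ← hform]
      exact e6 v hv
    · intro v
      rw [hTv, hTv, ← sub_div, abs_div, abs_of_pos hn0, hε₁, div_mul_eq_mul_div]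
      gcongr
      exact invt G w V π ξ τ hτ0 hξ n d hd1 hn1' hnτ hkn hn3' i v
    · exact mul_le_mul_of_nonneg_right hεle (norm_nonneg _)
  have henergy := en G w V π ξ τ hτ0 hξ n d E θ hd hnτ (hN.trans hnN) hn3' e3 (by
    intro v hv
    have h1 := e6 v hv
    rw [hform, div_le_iff₀ hn0] at h1
    linarith)
  refine ⟨V, inferInstance, inferInstance, π, coc π ξ, E, hE, e1, ⟨?_, ?_, ?_, ?_, ?_⟩, ?_⟩
  · exact Walk.coc_mul π ξ
  · rintro _ ⟨i, rfl⟩
    have h1 := m1 i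
    have h2 : (2 * √w.k) ^ 2 = 4 * w.k := by
      rw [mul_pow, Real.sq_sqrt hk0.le]; norm_num
    rw [← h2] at h1
    exact abs_le_of_sq_le_sq' h1 (by positivity) |>.2
  · intro s hs x hx
    rw [← hε]
    rcases hs with ⟨i, rfl⟩ | ⟨i, hi⟩
    · exact hinv i x hx
    · have : s = w.s (w.inv i) := by rw [w.s_inv, hi, inv_inv]
      rw [this]
      exact hinv _ x hx
  · rw [← hε]; exact hε0
  · positivity
  · intro m q hm hq
    refine path G w V π (coc π ξ) E (2 * √w.k) (by positivity) (Walk.coc_mul π ξ) ?_ m q ?_ ?_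
    · intro i
      have h1 := m1 i
      have h2 : (2 * √w.k) ^ 2 = 4 * w.k := by
        rw [mul_pow, Real.sq_sqrt hk0.le]; norm_num
      rw [← h2] at h1
      exact abs_le_of_sq_le_sq' h1 (by positivity) |>.2
    · have h2 : (2 * √w.k) ^ 2 = 4 * w.k := by
        rw [mul_pow, Real.sq_sqrt hk0.le]; norm_num
      rw [h2]
      linarith
    · refine gr G w V π ξ τ hτ0 hξ E ε hε0 hinv henergy m ?_ ?_
      · rw [hε]
        have : (m : ℝ) * (10 ^ 7 * w.k * d ^ 3 / √N) * w.k =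
            (10 ^ 9 * m * w.k ^ 2 * d ^ 3) / √N / 100 := by ring
        rw [this]
        have h1 : (10 ^ 9 * m * w.k ^ 2 * d ^ 3) / √(N : ℝ) ≤ 1 := by
          rw [div_le_one hsN]; exact hm
        linarith
      · have hm' : (m : ℝ) ≤ √(N : ℝ) := by
          refine le_trans ?_ hm
          have h1 : (1 : ℝ) ≤ 10 ^ 9 * (w.k ^ 2 * d ^ 3) := by
            have := one_le_mul_of_one_le_of_one_le hk2 hd3
            linarith
          have h2 : (m : ℝ) ≤ m * (10 ^ 9 * (w.k ^ 2 * d ^ 3)) :=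
            le_mul_of_one_le_right (Nat.cast_nonneg _) h1
          linarith
        rw [hτ', mul_div_assoc', div_le_div_iff₀ hN3 (by norm_num)]
        have h3 : √(N : ℝ) ≤ N := by nlinarith
        have h4 : (m : ℝ) ≤ N := hm'.trans h3
        calc (m : ℝ) * L * 1000 ≤ N * L * 1000 :=
              mul_le_mul_of_nonneg_right (mul_le_mul_of_nonneg_right h4 hL0.le) (by norm_num)
          _ = 10 * (N * (100 * L)) := by ring
          _ ≤ 10 * (N * N) := by gcongr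
          _ ≤ N * (N * N) := by
              gcongr
              linarith
          _ = 1 * (N : ℝ) ^ 3 := by ring

end Pool.Agent.Helper5.ST
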