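import Pool.Agent.Helper5.GapPerfect

/-!
Definitions for the bound `γ_X(n) ≥ exp(c (log n)^{4/3})`, valid for all finitely generated groups
that are not virtually nilpotent.
-/

namespace Pool.Agent.Helper5.ST

open Pool.Agent.Helper5.Gap
open scoped InnerProductSpace commutatorElement

universe u

/-- A finitely supported, symmetric, lazy probability measure on `G`, given as the image of the
weights `p : I → ℝ` under `s : I → G`; all weights are at least `1 / (4 k)`. -/
structure Walk (G : Type u) [Group G] where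
  I : Type
  fI : Fintype I
  s : I → G
  p : I → ℝ
  k : ℝ
  inv : I → I
  i₀ : I
  k1 : 1 ≤ k
  p_low : ∀ i, 1 / (4 * k) ≤ p i
  p_sum : ∑ i, p i = 1
  inv_inv : ∀ i, inv (inv i) = i
  s_inv : ∀ i, s (inv i) = (s i)⁻¹
  p_inv : ∀ i, p (inv i) = p i
  s_i₀ : s i₀ = 1
  p_i₀ : 1 / 2 ≤ p i₀

attribute [instance] Walk.fI

variable {G : Type u} [Group G]

/-- The support of a walk. -/
def Walk.X (w : Walk G) : Set G := Set.range w.s

/-- The expectation of `f` under the `n`-th convolution power. -/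
noncomputable def Walk.mean (w : Walk G) {W : Type*} [AddCommGroup W] [Module ℝ W] :
    ℕ → (G → W) → W
  | 0, f => f 1
  | n + 1, f => ∑ i, w.p i • Walk.mean w n (fun g => f (w.s i * g))

open Classical in
/-- The `n`-th convolution power, as a function on `G`. -/
noncomputable def Walk.mu (w : Walk G) (n : ℕ) (g : G) : ℝ :=
  w.mean n (fun h => if h = g then (1 : ℝ) else 0)

theorem Walk.X_finite (w : Walk G) : w.X.Finite := Set.finite_range _

/-- The ball of radius `n`, as a finset. -/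
noncomputable def Walk.B (w : Walk G) (n : ℕ) : Finset G :=
  (ball_finite w.X_finite n).toFinset

/-- The squared Hellinger distance between the left translate of `μ^n` by `s i` and `μ^(n+1)`. -/
noncomputable def Walk.hel (w : Walk G) (n : ℕ) (i : w.I) : ℝ :=
  ∑ g ∈ w.B (n + 1), (√(w.mu n ((w.s i)⁻¹ * g)) - √(w.mu (n + 1) g)) ^ 2

/-- The average squared Hellinger distance. -/
noncomputable def Walk.Hel (w : Walk G) (n : ℕ) : ℝ := ∑ i, w.p i * w.hel n i

/-- The Shannon entropy of `μ^n`. -/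
noncomputable def Walk.ent (w : Walk G) (n : ℕ) : ℝ := ∑ g ∈ w.B n, Real.negMulLog (w.mu n g)

section rep

variable {V : Type u} [NormedAddCommGroup V] [InnerProductSpace ℝ V]

/-- The coboundary `g ↦ π(g)ξ - ξ`. -/
def coc (π : G →* (V ≃ₗᵢ[ℝ] V)) (ξ : V) (g : G) : V := π g ξ - ξ

/-- `2 ⟨Q^j (1 - Q) ξ, ξ⟩`, where `Q` is the averaging operator of the walk. -/
noncomputable def Walk.tt (w : Walk G) (π : G →* (V ≃ₗᵢ[ℝ] V)) (ξ : V) (j : ℕ) : ℝ :=
  2 * (w.mean j (fun g => ⟪π g ξ, ξ⟫_ℝ) - w.mean (j + 1) (fun g => ⟪π g ξ, ξ⟫_ℝ))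

/-- The vector `ξ` produced by the spectral argument. -/
structure IsXi (w : Walk G) (π : G →* (V ≃ₗᵢ[ℝ] V)) (ξ : V) (τ : ℝ) : Prop where
  t0 : w.tt π ξ 0 = 1
  anti : ∀ j, w.tt π ξ (j + 1) ≤ w.tt π ξ j
  slow : ∀ j, (1 - τ) * w.tt π ξ j ≤ w.tt π ξ (j + 1)

end rep

end Pool.Agent.Helper5.ST
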