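import Pool.Agent.Helper5.ST.GoalsA

/-!
Statements of the geometric part (near-identity elements, Milnor chain, direct products of balls).
-/

namespace Pool.Agent.Helper5.ST

open Pool.Agent.Helper5.Gap Filter Topology
open scoped InnerProductSpace commutatorElement

universe u

section defs

variable {G : Type u} [Group G] {V : Type u} [NormedAddCommGroup V] [InnerProductSpace ℝ V]

/-- `π g` moves the vectors of `E` by a factor at most `x`. -/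
def Nr (π : G →* (V ≃ₗᵢ[ℝ] V)) (E : Submodule ℝ V) (x : ℝ) (g : G) : Prop :=
  ∀ v ∈ E, ‖π g v - v‖ ≤ x * ‖v‖

/-- The sets of the Milnor chain. -/
def UU (S : Set G) (K : ℕ) : ℕ → Set G
  | 0 => S
  | i + 1 => {y | ∃ g ∈ ball S K, ∃ u ∈ UU S K i, ∃ v ∈ UU S K i, y = g * ⁅u, v⁆ * g⁻¹}

/-- Bounds for the word lengths in the Milnor chain. -/
def ulen (ℓ₀ K : ℕ) : ℕ → ℕ
  | 0 => ℓ₀
  | i + 1 => 4 * ulen ℓ₀ K i + 2 * (K * ℓ₀)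

/-- Every subgroup `X` of `A` maps onto a spanning subset of `ℚ^m` with kernel containing
`X ∩ B` only if `m ≤ n`. -/
def Rk (A B : Subgroup G) (n : ℕ) : Prop :=
  ∀ (X : Subgroup G), X ≤ A → ∀ (m : ℕ) (φ : X → (Fin m → ℚ)), (∀ x y, φ (x * y) = φ x + φ y) →
    (∀ x : X, (x : G) ∈ B → φ x = 0) → Submodule.span ℚ (Set.range φ) = ⊤ → m ≤ n

end defs

/-- PACK -/
def SPack : Prop := ∀ (F : Type u) [NormedAddCommGroup F] [NormedSpace ℝ F]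
  [FiniteDimensional ℝ F] (s : Finset F), (∀ c ∈ s, ‖c‖ ≤ 1) →
  (∀ c ∈ s, ∀ d ∈ s, c ≠ d → 1 / 9 ≤ ‖c - d‖) → s.card ≤ 19 ^ Module.finrank ℝ F

/-- NRAPI -/
def SNrApi : Prop := ∀ (G : Type u) [Group G] (X : Set G) (V : Type u) [NormedAddCommGroup V]
  [InnerProductSpace ℝ V] (π : G →* (V ≃ₗᵢ[ℝ] V)) (b : G → V) (E : Submodule ℝ V)
  [FiniteDimensional ℝ E] (β ε : ℝ), IsAA X π b E β ε →
  ∀ (a c : ℕ) (g h : G), g ∈ ball X a → h ∈ ball X c →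
    ‖b g‖ ≤ a * β ∧
    (∀ v ∈ E, ‖π g v - E.starProjection (π g v)‖ ≤ a * ε * ‖v‖) ∧
    (∀ v, ‖E.starProjection (π g v)‖ ≤ ‖E.starProjection v‖ + a * ε * ‖v‖) ∧
    (∀ x : ℝ, Nr π E x g → Nr π E x g⁻¹) ∧
    (∀ x y : ℝ, 0 ≤ x → Nr π E x g → Nr π E y h → Nr π E (x + y) (g * h)) ∧
    (∀ y : ℝ, 0 ≤ y → Nr π E y h → Nr π E (y + 2 * (a * ε)) (g * h * g⁻¹)) ∧
    (∀ x y : ℝ, 0 ≤ x → 0 ≤ y → Nr π E x g → Nr π E y h →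
      Nr π E (2 * x * y + 4 * ((a + c) * ε)) ⁅g, h⁆) ∧
    (∀ x : ℝ, 0 ≤ x → Nr π E x g → ∀ v, ‖E.starProjection (π g v - v)‖ ≤ x * ‖v‖)

/-- NEAR -/
def SNear : Prop := ∀ (G : Type u) [Group G] (X : Set G) (V : Type u) [NormedAddCommGroup V]
  [InnerProductSpace ℝ V] (π : G →* (V ≃ₗᵢ[ℝ] V)) (b : G → V) (E : Submodule ℝ V)
  [FiniteDimensional ℝ E] (β ε : ℝ), IsAA X π b E β ε → X.Finite → Subgroup.closure X = ⊤ →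
  ∀ r₀ : ℕ, 19 ^ ((Module.finrank ℝ E) ^ 2) ≤ r₀ → 200 * (r₀ + 1) * ε ≤ 1 →
  ∃ S₀ : Set G, S₀ ⊆ ball X (2 * r₀ + 1) ∧ (∀ g ∈ S₀, Nr π E (1 / 8) g) ∧
    (Subgroup.closure S₀).FiniteIndex

/-- CHAIN -/
def SChain : Prop := ∀ (G : Type u) [Group G] (X : Set G) (V : Type u) [NormedAddCommGroup V]
  [InnerProductSpace ℝ V] (π : G →* (V ≃ₗᵢ[ℝ] V)) (b : G → V) (E : Submodule ℝ V)
  [FiniteDimensional ℝ E] (β ε : ℝ), IsAA X π b E β ε →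
  ∀ (S₀ : Set G) (ℓ₀ K r L : ℕ), S₀ ⊆ ball X ℓ₀ → (∀ g ∈ S₀, Nr π E (1 / 8) g) → L + 1 ≤ r →
  320 * ε * ulen ℓ₀ K r ≤ 1 → (1 / 4 : ℝ) ^ (2 ^ L) ≤ 2 * ε * ulen ℓ₀ K r →
  ∀ s ∈ UU S₀ K r, s ∈ ball X (ulen ℓ₀ K r) ∧
    ‖E.starProjection (b s)‖ ≤ 170 * β * ε * (ulen ℓ₀ K r) ^ 2

/-- DIRECT -/
def SDirect : Prop := ∀ (G : Type u) [Group G] (X : Set G) (V : Type u) [NormedAddCommGroup V]
  [InnerProductSpace ℝ V] (π : G →* (V ≃ₗᵢ[ℝ] V)) (b : G → V) (E : Submodule ℝ V)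
  [FiniteDimensional ℝ E] (β ε : ℝ), IsAA X π b E β ε → X.Finite →
  ∀ (S₁ : Set G) (ℓ m m₁ : ℕ) (φ : ℝ) (T : Finset G), S₁ ⊆ ball X ℓ →
  (∀ s ∈ S₁, ‖E.starProjection (b s)‖ ≤ φ) → (∀ t ∈ T, t ∈ ball X m) →
  (∀ t ∈ T, ∀ t' ∈ T, t ≠ t' → β ≤ ‖E.starProjection (b t - b t')‖) →
  2 * (m₁ * φ + ε * β * (m₁ * ℓ) ^ 2 + ε * β * m * (m₁ * ℓ)) < β →
    T.card * growth S₁ m₁ ≤ growth X (m + m₁ * ℓ)

/-- MIL -/
def SMil : Prop := ∀ (H : Type u) [Group H] (S : Set H), S.Finite → Subgroup.closure S = ⊤ →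
  ∀ K R r : ℕ, growth S R < 2 ^ K → K * (4 ^ r * (K + 1)) ≤ R → ∀ i ≤ r,
    Subgroup.closure (UU S K i) = derivedSeries H i

/-- STRUCT -/
def SStruct : Prop := ∀ (G : Type u) [Group G] (X : Set G), X.Finite →
  Subgroup.closure X = ⊤ → ∀ K, 1 ≤ K → growth X (136 * 4 ^ 18 * K ^ 20) < 2 ^ K →
  ∀ r, 7 * Nat.log 2 K + 18 + (Nat.clog 2 K + 1) ≤ r →
    (derivedSeries G r).FG ∧ derivedSeries G (r + 1) = derivedSeries G r ∧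
      VirtNilpotent (G ⧸ derivedSeries G r)

/-- SEL -/
def SSel : Prop := ∀ (G : Type u) [Group G] [Infinite G] (X : Set G), X.Finite →
  Subgroup.closure X = ⊤ → ∀ K, growth X K < 2 ^ K →
    ∃ w : Walk G, w.X ⊆ ball X 1 ∧ Subgroup.closure w.X = ⊤ ∧ w.k ≤ K

/-- TR -/
def STr : Prop := ∀ (H G : Type u) [Group H] [Group G] (f : H →* G), Function.Injective f →
  ∀ (S : Set H) (K n : ℕ), S.Finite → f '' ball S n = ball (f '' S) n ∧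
    growth (f '' S) n = growth S n ∧ f '' UU S K n = UU (f '' S) K n

/-- GSUB -/
def SGsub : Prop := ∀ (G : Type u) [Group G] (X Y : Set G) (ℓ : ℕ), X.Finite → Y ⊆ ball X ℓ →
  ∀ n, ball Y n ⊆ ball X (ℓ * n) ∧ growth Y n ≤ growth X (ℓ * n)

/-- RKADD -/
def SRkAdd : Prop := ∀ (G : Type u) [Group G] (A B C : Subgroup G) (m n : ℕ),
  B ≤ A → Rk A B m → Rk B C n → Rk A C (m + n)

/-- RKFIN -/
def SRkFin : Prop := ∀ (G : Type u) [Group G] (H : Subgroup G), H.FiniteIndex → Rk ⊤ H 0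

/-- RKMAP -/
def SRkMap : Prop := ∀ (G : Type u) [Group G] (P : Subgroup G) (n : ℕ),
  Rk (⊤ : Subgroup P) ⊥ n → Rk P ⊥ n

/-- RKDER -/
def SRkDer : Prop := ∀ (G : Type u) [Group G] (X : Set G), X.Finite →
  Subgroup.closure X = ⊤ → ∀ K R r : ℕ, growth X R < 2 ^ K → K * (4 ^ r * (K + 1)) ≤ R →
    Rk ⊤ (derivedSeries G r) (r * K)

/-- CHARN -/
def SCharN : Prop := ∀ (H : Type u) [Group H] (P : Subgroup H) [P.Normal], P.FG →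
  VirtNilpotent P → ∃ N : Subgroup H, N.Normal ∧ N ≤ P ∧ N.relIndex P ≠ 0 ∧ Group.IsNilpotent N

/-- COC -/
def SCoc : Prop := ∀ (H : Type u) [Group H] (N P : Subgroup H) [N.Normal] [P.Normal], N ≤ P →
  N.relIndex P ≠ 0 → ⁅P, P⁆ = P → ∀ (m : ℕ) (ι : N → (Fin m → ℚ))
  (L : H →* Module.End ℚ (Fin m → ℚ)), (∀ x y, ι (x * y) = ι x + ι y) →
  (∀ (t : H) (x : N), ι (MulAut.conjNormal t x) = L t (ι x)) →
  Submodule.span ℚ (Set.range ι) = ⊤ →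
    ∃ v : H → (Fin m → ℚ), (∀ t s, v (t * s) = v t + L t (v s)) ∧ ∀ x : N, v x = ι x

/-- LB -/
def SLb : Prop := ∀ (H : Type u) [Group H] (S : Set H), S.Finite → Subgroup.closure S = ⊤ →
  (∃ A : Subgroup H, A.FiniteIndex ∧ Group.IsSolvable A) →
  ∀ (D : ℕ) (Φ : H →* GL (Fin D) ℚ) (K R : ℕ), 1 ≤ D → growth S R < 2 ^ K →
  33 * D ^ 6 * K ≤ R → VirtNilpotent Φ.range

/-- UNI -/
def SUni : Prop := ∀ (H : Type u) [Group H] (N : Subgroup H) [N.Normal] (m : ℕ)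
  (ι : N → (Fin m → ℚ)) (L : H →* Module.End ℚ (Fin m → ℚ)) (v : H → (Fin m → ℚ)),
  (∀ x y, ι (x * y) = ι x + ι y) → (∀ (t : H) (x : N), ι (MulAut.conjNormal t x) = L t (ι x)) →
  Submodule.span ℚ (Set.range ι) = ⊤ → (∀ t s, v (t * s) = v t + L t (v s)) →
  (∀ x : N, v x = ι x) → (∀ Φ : H →* GL (Fin (m + 1)) ℚ, VirtNilpotent Φ.range) →
  ∃ A : Subgroup H, A.Normal ∧ A.FiniteIndex ∧ ∃ (c : ℕ) (W : ℕ → Submodule ℚ (Fin m → ℚ)),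
    W 0 = ⊤ ∧ W c = ⊥ ∧ ∀ j, ∀ x ∈ W j, ∀ a ∈ A, L a x - x ∈ W (j + 1)

/-- HALL -/
def SHall : Prop := ∀ (Γ : Type u) [Group Γ] (N A : Subgroup Γ) [N.Normal] [A.Normal],
  Group.IsNilpotent N → ∀ c : ℕ, ((fun B : Subgroup Γ => ⁅B, A⁆)^[c]) N ≤ ⁅N, N⁆ →
    ∃ c' : ℕ, ((fun B : Subgroup Γ => ⁅B, A⁆)^[c']) N = ⊥

/-- EXT -/
def SExt : Prop := ∀ (H : Type u) [Group H] (S : Set H), S.Finite → Subgroup.closure S = ⊤ →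
  ∀ (P : Subgroup H) [P.Normal], P.FG → ⁅P, P⁆ = P → VirtNilpotent (H ⧸ P) → VirtNilpotent P →
  ∀ n K R : ℕ, Rk P ⊥ n → growth S R < 2 ^ K → 33 * (n + 1) ^ 6 * K ≤ R → VirtNilpotent H

/-- STEP -/
def SStep : Prop := ∀ (G : Type u) [Group G] [Infinite G] (X : Set G), X.Finite →
  Subgroup.closure X = ⊤ → ∀ (d M K r₀ r L ℓ m q : ℕ) (ε : ℝ), 1 ≤ d → 1 ≤ M →
  growth X ((M ^ 2) ^ 3) ≤ (M ^ 2) ^ d → (M ^ 2) ^ d < 2 ^ K → K ≤ M →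
  10 ^ 12 * K ^ 2 * d ^ 3 ≤ M ^ 2 → 19 ^ ((160 * d) ^ 2) ≤ r₀ →
  ε = 10 ^ 7 * K * d ^ 3 / M → 200 * (r₀ + 1) * ε ≤ 1 → ℓ = ulen (2 * r₀ + 1) K r →
  320 * ε * ℓ ≤ 1 → (1 / 4 : ℝ) ^ (2 ^ L) ≤ 2 * ε * ℓ → L + 1 ≤ r →
  7 * Nat.log 2 K + 18 + (Nat.clog 2 K + 1) ≤ r →
  (2 * r₀ + 1) * (136 * 4 ^ 18 * K ^ 20) ≤ M ^ 4 →
  (2 * r₀ + 1) * (K * (4 ^ r * (K + 1))) ≤ M ^ 4 → 32 * q ^ 2 * K ≤ m →
  10 ^ 9 * m * K ^ 2 * d ^ 3 ≤ M →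
  ∃ (H : Subgroup G) (S₀ : Set H), H.FiniteIndex ∧ S₀.Finite ∧ Subgroup.closure S₀ = ⊤ ∧
    (∀ n, growth S₀ n ≤ growth X ((2 * r₀ + 1) * n)) ∧
    (derivedSeries H r).FG ∧ ⁅derivedSeries H r, derivedSeries H r⁆ = derivedSeries H r ∧
    VirtNilpotent (H ⧸ derivedSeries H r) ∧ Rk ⊤ (derivedSeries H r) (r * K) ∧
    ∃ S₁ : Set (derivedSeries H r), S₁.Finite ∧ Subgroup.closure S₁ = ⊤ ∧
      (∀ n, growth S₁ n ≤ growth X (ℓ * n)) ∧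
      ∀ m₁ : ℕ, 400 * ε * (m₁ * ℓ + m) ^ 2 ≤ 1 → q * growth S₁ m₁ ≤ growth X (m + m₁ * ℓ)

end Pool.Agent.Helper5.ST
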