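import Pool.Agent.Helper5.ST.GoalsB

/-!
Numerics, the main induction and the final theorem.
-/

namespace Pool.Agent.Helper5.ST

open Pool.Agent.Helper5.Gap Filter Topology
open scoped InnerProductSpace commutatorElement

universe u

/-- The lengths `m_J`. -/
def mlen (m ℓ : ℕ) : ℕ → ℕ
  | 0 => 0
  | J + 1 => m + mlen m ℓ J * ℓ

/-- All numerical conditions. -/
structure NumOK (d M K r₀ r L ℓ m q J : ℕ) (ε : ℝ) : Prop where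
  d1 : 1 ≤ d
  M1 : 1 ≤ M
  K1 : 1 ≤ K
  q1 : 1 ≤ q
  ℓ1 : 1 ≤ ℓ
  MK : (M ^ 2) ^ d < 2 ^ K
  KM : K ≤ M
  big : 10 ^ 12 * K ^ 2 * d ^ 3 ≤ M ^ 2
  pack : 19 ^ ((160 * d) ^ 2) ≤ r₀
  eps : ε = 10 ^ 7 * K * d ^ 3 / M
  near : 200 * (r₀ + 1) * ε ≤ 1
  len : ℓ = ulen (2 * r₀ + 1) K r
  eℓ : 320 * ε * ℓ ≤ 1
  deep : (1 / 4 : ℝ) ^ (2 ^ L) ≤ 2 * ε * ℓ
  Lr : L + 1 ≤ r
  rr : 7 * Nat.log 2 K + 18 + (Nat.clog 2 K + 1) ≤ r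
  R1 : (2 * r₀ + 1) * (136 * 4 ^ 18 * K ^ 20) ≤ M ^ 4
  R2 : (2 * r₀ + 1) * (K * (4 ^ r * (K + 1))) ≤ M ^ 4
  mq : 32 * q ^ 2 * K ≤ m
  mM : 10 ^ 9 * m * K ^ 2 * d ^ 3 ≤ M
  R3 : (2 * r₀ + 1) * (33 * (J * (r * K) + 1) ^ 6 * K) ≤ M ^ 6
  J1 : (M ^ 2) ^ d < q ^ J
  J2 : 400 * ε * (mlen m ℓ J) ^ 2 ≤ 1
  J3 : mlen m ℓ J ≤ ℓ ^ J * M ^ 6

/-- NUM -/
def SNum : Prop := ∃ C₀ : ℕ, 1 ≤ C₀ ∧ ∀ d v : ℕ, 1 ≤ d → C₀ * d ^ 3 ≤ v →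
  ∃ (M K r₀ r L ℓ m q J : ℕ) (ε : ℝ), NumOK d M K r₀ r L ℓ m q J ε ∧
    (M ^ 2) ^ d = 2 ^ (100 * d * v) ∧ ℓ ^ J * M ^ 6 ≤ 2 ^ (400 * v)

/-- FINOVER -/
def SVnOver : Prop := ∀ (G : Type u) [Group G] (H : Subgroup G), H.FiniteIndex →
  VirtNilpotent H → VirtNilpotent G

/-- MAIN -/
def SMain : Prop := ∀ (d M K r₀ r L ℓ m q J₀ : ℕ) (ε : ℝ), NumOK d M K r₀ r L ℓ m q J₀ ε →
  ∀ J ≤ J₀, ∀ (G : Type u) [Group G] (X : Set G), X.Finite → Subgroup.closure X = ⊤ →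
    growth X (ℓ ^ J * M ^ 6) ≤ (M ^ 2) ^ d → growth X (mlen m ℓ J) < q ^ J →
      VirtNilpotent G ∧ Rk (⊤ : Subgroup G) ⊥ (J * (r * K))

/-- SCALE: the single scale theorem. -/
def SScale : Prop := ∃ C₀ : ℕ, 1 ≤ C₀ ∧ ∀ d v : ℕ, 1 ≤ d → C₀ * d ^ 3 ≤ v →
  ∀ (G : Type u) [Group G] (X : Set G), X.Finite → Subgroup.closure X = ⊤ →
    growth X (2 ^ (400 * v)) ≤ 2 ^ (100 * d * v) → VirtNilpotent G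

/-- FINAL -/
def SFinal : Prop := ∃ c : ℝ, 0 < c ∧ ∀ (G : Type u) [Group G] (X : Finset G),
  Subgroup.closure (X : Set G) = ⊤ → ¬ VirtNilpotent G → ∀ n : ℕ, 1 ≤ n →
    Real.exp (c * (Real.log n) ^ (4 / 3 : ℝ)) ≤ growth (X : Set G) n

end Pool.Agent.Helper5.ST
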