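import Pool.Agent.Helper5.ST.Final
import Pool.Agent.Helper10.ST.Ext
import Pool.Agent.Helper47.ST.Lb

/-!
The universal growth bound.
-/

namespace Pool.Agent.Helper5.ST

open Pool.Agent Pool.Agent.Helper5.Gap

universe u

theorem ext_all : SExt.{u} :=
  Helper10.ST.ext Helper95.GG.charN Helper69.ST.coc Helper47.ST.lb Helper27.ST.uni
    Helper95.GG.hall

/-- The universal bound. -/
theorem finalResult : ∃ c : ℝ, 0 < c ∧ ∀ (G : Type u) [Group G] (X : Finset G),
    Subgroup.closure (X : Set G) = ⊤ → ¬ VirtNilpotent G → ∀ n : ℕ, 1 ≤ n →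
      Real.exp (c * Real.log n ^ (4 / 3 : ℝ)) ≤ growth (X : Set G) n :=
  final_of ext_all

end Pool.Agent.Helper5.ST
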